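import Pool.Agent.Run7.h47.V.Loc3

/-! Piece BND, part 1: the bounds in terms of the parameters. -/

set_option autoImplicit false
set_option linter.unusedSectionVars false

open scoped BigOperators Matrix
open MeasureTheory

namespace Pool.Agent.Run7.h47.V

open Pool.Agent.W788.MFP.Four Pool.Agent.W788.MFP.Form Pool.Agent.W788.BK
open Pool.Agent.W788.MFP.Gm (Γ)

variable {d L : ℕ} [NeZero L] {n ℓ : ℕ} [NeZero n]

/-- the data of the estimate -/
structure Dat (cell : T d L → T d n) (χ : T d n → T d L → ℝ) (M : T d n → Finset (T d n))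
    (ℓ : ℕ) (G : T d n → Set (T d L → ℝ)) (E τ δ t σ τ₀ θ Q g p v c K : ℝ) (X : T d L → ℂ) :
    Prop where
  tl : Tl d L n ℓ cell χ M
  hd : 1 ≤ d
  gd : Gd cell G p v
  hδ : 0 < δ
  ht : 0 < t
  htδ : t ≤ δ
  hτ₀ : 0 ≤ τ₀
  hσ : |σ| * (2 ^ d * τ₀) ≤ 1 / 2
  hℓ : 200 * d ≤ δ * ℓ
  near : ∀ k, ‖X k - ((adj k : ℂ) - E - τ * Complex.I)‖ ≤ δ / 20
  dis : ∀ k, t * (100 * δ ^ 2 / ((adj k - E) ^ 2 + 100 * δ ^ 2)) ≤ -(X k).im
  form : ∀ (c : T d n), ∀ V ∈ G c, ∀ (w : T d L → ℝ),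
      |∑ x ∈ Finset.univ.filter (fun x => cell x = c), V x * w x ^ 2| ≤ τ₀ * q (J E δ) w
  hQ0 : 0 ≤ Q
  hQ : ∀ P : T d L, ¬ Low θ P → ∑ k : T d L, (J E δ k * J E δ (k + P))⁻¹ ≤ Q * NN d L
  hg : (NN d L)⁻¹ * ∑ k : T d L, (J E δ k)⁻¹ ≤ g
  hp : 0 ≤ p
  hv : 0 ≤ v
  hc : 0 < c
  hD : Dis c X
  hK : (c ^ 2)⁻¹ * σ ^ 2 * Real.sqrt (3 * p) * (2 * (1 + (c ^ 2)⁻¹ * σ ^ 2 * v ^ 2)) ≤ K
  hK1 : K ≤ 1

variable {cell : T d L → T d n} {χ : T d n → T d L → ℝ} {M : T d n → Finset (T d n)}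
  {G : T d n → Set (T d L → ℝ)} {E τ δ t σ τ₀ θ Q g p v c K : ℝ} {X : T d L → ℂ}

theorem Dat.neg (H : Dat cell χ M ℓ G E τ δ t σ τ₀ θ Q g p v c K X) :
    Dat cell χ M ℓ G E τ δ t σ τ₀ θ Q g p v c K fun k => X (-k) := by
  refine ⟨H.tl, H.hd, H.gd, H.hδ, H.ht, H.htδ, H.hτ₀, H.hσ, H.hℓ, fun k => ?_, fun k => ?_,
    H.form, H.hQ0, H.hQ, H.hg, H.hp, H.hv, H.hc, H.hD.neg, H.hK, H.hK1⟩
  · have := H.near (-k)
    rwa [adj_neg] at this
  · have := H.dis (-k)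
    rwa [adj_neg] at this

/-- the cut off potential satisfies the form bound -/
theorem Dat.cutform (H : Dat cell χ M ℓ G E τ δ t σ τ₀ θ Q g p v c K X) (V : T d L → ℝ)
    (c' : T d n) (w : T d L → ℝ) :
    |∑ x ∈ Finset.univ.filter (fun x => cell x = c'), cut cell G V x * w x ^ 2| ≤
      τ₀ * q (J E δ) w := by
  by_cases h : V ∈ G c'
  · have e1 : ∑ x ∈ Finset.univ.filter (fun x => cell x = c'), cut cell G V x * w x ^ 2 =
        ∑ x ∈ Finset.univ.filter (fun x => cell x = c'), V x * w x ^ 2 := by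
      refine Finset.sum_congr rfl fun x hx => ?_
      rw [Finset.mem_filter] at hx
      unfold cut
      rw [hx.2, if_pos h]
    rw [e1]
    exact H.form c' V h w
  · have e1 : ∑ x ∈ Finset.univ.filter (fun x => cell x = c'), cut cell G V x * w x ^ 2 = 0 := by
      refine Finset.sum_eq_zero fun x hx => ?_
      rw [Finset.mem_filter] at hx
      unfold cut
      rw [hx.2, if_neg h, zero_mul]
    rw [e1, abs_zero]
    have hq : 0 ≤ q (J E δ) w := q_nonneg _ _ fun k => (J_pos E δ H.hδ k).le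
    exact mul_nonneg H.hτ₀ hq

/-- the localized estimate -/
theorem Dat.loc (H : Dat cell χ M ℓ G E τ δ t σ τ₀ θ Q g p v c K X) (V : T d L → ℝ)
    (f : T d L → ℂ) :
    nsq (RX X σ (cut cell G V) *ᵥ f) ≤ 20 * δ / t ^ 2 * AX χ E δ f ∧
      BX χ E δ (RX X σ (cut cell G V) *ᵥ f) ≤ 100 * δ ^ 2 / t ^ 2 * AX χ E δ f :=
  Pool.Agent.Run7.h47.V.loc d L n ℓ cell χ M H.tl H.hd E τ δ t σ τ₀ X (cut cell G V) H.hδ H.ht H.htδ H.hτ₀ H.hσ H.hℓ
    H.near H.dis (H.cutform V) _ f (HX_RX H.hc H.hD σ _ f)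

/-- the difference of the resolvents -/
noncomputable def Df (cell : T d L → T d n) (G : T d n → Set (T d L → ℝ)) (X : T d L → ℂ)
    (σ : ℝ) (V : T d L → ℝ) : Matrix (T d L) (T d L) ℂ := RX X σ V - RX X σ (cut cell G V)

theorem Dat.Df_meas (hDEC : S_DEC) (H : Dat cell χ M ℓ G E τ δ t σ τ₀ θ Q g p v c K X)
    (a b : T d L) : Measurable fun V => Df cell G X σ V a b := by
  have h1 := (hDEC d L n cell G p v H.gd H.hp H.hv X c σ H.hc H.hD).1 a b
  have h2 := (RX_cont H.hc H.hD σ a b).measurable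
  exact h2.sub h1

theorem nsq_meas {A : (T d L → ℝ) → Matrix (T d L) (T d L) ℂ}
    (h : ∀ a b, Measurable fun V => A V a b) (f : T d L → ℂ) :
    Measurable fun V => nsq (A V *ᵥ f) := by
  unfold nsq Matrix.mulVec dotProduct
  refine Finset.measurable_sum _ fun x _ => ?_
  refine Measurable.pow_const (Measurable.norm ?_) 2
  exact Finset.measurable_sum _ fun y _ => (h x y).mul_const _

theorem Dat.cut_bd (H : Dat cell χ M ℓ G E τ δ t σ τ₀ θ Q g p v c K X) (V : T d L → ℝ)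
    (f : T d L → ℂ) : nsq (RX X σ (cut cell G V) *ᵥ f) ≤ (c ^ 2)⁻¹ * nsq f :=
  RX_nsq H.hc H.hD σ _ f

theorem Dat.cut_int (hDEC : S_DEC) (H : Dat cell χ M ℓ G E τ δ t σ τ₀ θ Q g p v c K X)
    (f : T d L → ℂ) :
    Integrable (fun V => nsq (RX X σ (cut cell G V) *ᵥ f)) (Γ (T d L)) := by
  refine Integrable.of_bound (nsq_meas (fun a b =>
    (hDEC d L n cell G p v H.gd H.hp H.hv X c σ H.hc H.hD).1 a b) f).aestronglyMeasurable
    ((c ^ 2)⁻¹ * nsq f) (Filter.Eventually.of_forall fun V => ?_)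
  rw [Real.norm_of_nonneg (nsq_nonneg _)]
  exact H.cut_bd V f

theorem Df_bd (H : Dat cell χ M ℓ G E τ δ t σ τ₀ θ Q g p v c K X) (V : T d L → ℝ)
    (f : T d L → ℂ) : nsq (Df cell G X σ V *ᵥ f) ≤ 4 * ((c ^ 2)⁻¹ * nsq f) := by
  have e1 : Df cell G X σ V *ᵥ f =
      fun x => (RX X σ V *ᵥ f) x + -((RX X σ (cut cell G V) *ᵥ f) x) := by
    unfold Df
    rw [Matrix.sub_mulVec]
    funext x
    rw [Pi.sub_apply, sub_eq_add_neg]
  rw [e1]
  refine (nsq_add2 _ _).trans ?_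
  have e2 : nsq (fun x => -((RX X σ (cut cell G V) *ᵥ f) x)) =
      nsq (RX X σ (cut cell G V) *ᵥ f) := by
    unfold nsq
    simp only [norm_neg]
  rw [e2]
  have h1 := RX_nsq H.hc H.hD σ V f
  have h2 := H.cut_bd V f
  linarith

theorem Df_int (hDEC : S_DEC) (H : Dat cell χ M ℓ G E τ δ t σ τ₀ θ Q g p v c K X)
    (f : T d L → ℂ) : Integrable (fun V => nsq (Df cell G X σ V *ᵥ f)) (Γ (T d L)) := by
  refine Integrable.of_bound (nsq_meas (fun a b => H.Df_meas hDEC a b) f).aestronglyMeasurable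
    (4 * ((c ^ 2)⁻¹ * nsq f)) (Filter.Eventually.of_forall fun V => ?_)
  rw [Real.norm_of_nonneg (nsq_nonneg _)]
  exact Df_bd H V f

/-- the mean of the difference -/
theorem Df_mean (hDEC : S_DEC) (H : Dat cell χ M ℓ G E τ δ t σ τ₀ θ Q g p v c K X)
    (f : T d L → ℂ) : ∫ V, nsq (Df cell G X σ V *ᵥ f) ∂(Γ (T d L)) ≤
      K * ∫ V, nsq (RX X σ (cut cell G V) *ᵥ f) ∂(Γ (T d L)) := by
  refine ((hDEC d L n cell G p v H.gd H.hp H.hv X c σ H.hc H.hD).2 f).trans ?_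
  exact mul_le_mul_of_nonneg_right H.hK (integral_nonneg fun V => nsq_nonneg _)

theorem cut_mean_bd (hDEC : S_DEC) (H : Dat cell χ M ℓ G E τ δ t σ τ₀ θ Q g p v c K X)
    (f : T d L → ℂ) (B : ℝ) (hB : ∀ V, nsq (RX X σ (cut cell G V) *ᵥ f) ≤ B) :
    ∫ V, nsq (RX X σ (cut cell G V) *ᵥ f) ∂(Γ (T d L)) ≤ B := by
  have h := integral_mono (H.cut_int hDEC f) (integrable_const B) hB
  simpa using h

theorem Dat.K0 (H : Dat cell χ M ℓ G E τ δ t σ τ₀ θ Q g p v c K X) : 0 ≤ K := by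
  refine le_trans ?_ H.hK
  have := H.hc
  positivity

/-- the mean square on a plane wave -/
theorem NX_le (hDEC : S_DEC) (H : Dat cell χ M ℓ G E τ δ t σ τ₀ θ Q g p v c K X) (k : T d L) :
    NX X σ k ≤ 4 * ((NN d L)⁻¹ * ∫ V, nsq (RX X σ (cut cell G V) *ᵥ fun x => e k x) ∂(Γ (T d L))) := by
  have hN := NN_pos (d := d) (L := L)
  set f : T d L → ℂ := fun x => e k x with hf
  have h1 : ∀ V, nsq (RX X σ V *ᵥ f) ≤
      2 * nsq (RX X σ (cut cell G V) *ᵥ f) + 2 * nsq (Df cell G X σ V *ᵥ f) := by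
    intro V
    have e1 : RX X σ V *ᵥ f = fun x => (RX X σ (cut cell G V) *ᵥ f) x +
        (Df cell G X σ V *ᵥ f) x := by
      unfold Df
      rw [Matrix.sub_mulVec]
      funext x
      rw [Pi.sub_apply]
      ring
    rw [e1]
    exact nsq_add2 _ _
  have i1 : Integrable (fun V => nsq (RX X σ V *ᵥ f)) (Γ (T d L)) := by
    refine Integrable.of_bound (nsq_meas (fun a b =>
      (RX_cont H.hc H.hD σ a b).measurable) f).aestronglyMeasurable
      ((c ^ 2)⁻¹ * nsq f) (Filter.Eventually.of_forall fun V => ?_)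
    rw [Real.norm_of_nonneg (nsq_nonneg _)]
    exact RX_nsq H.hc H.hD σ V f
  have i2 := H.cut_int hDEC f
  have i3 := Df_int hDEC H f
  have h2 : ∫ V, nsq (RX X σ V *ᵥ f) ∂(Γ (T d L)) ≤
      2 * (∫ V, nsq (RX X σ (cut cell G V) *ᵥ f) ∂(Γ (T d L))) +
        2 * ∫ V, nsq (Df cell G X σ V *ᵥ f) ∂(Γ (T d L)) := by
    rw [← integral_const_mul, ← integral_const_mul,
      ← integral_add (i2.const_mul 2) (i3.const_mul 2)]
    exact integral_mono i1 ((i2.const_mul 2).add (i3.const_mul 2)) h1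
  have h3 := Df_mean hDEC H f
  have h4 : 0 ≤ ∫ V, nsq (RX X σ (cut cell G V) *ᵥ f) ∂(Γ (T d L)) :=
    integral_nonneg fun V => nsq_nonneg _
  have h5 := mul_le_mul_of_nonneg_right H.hK1 h4
  unfold NX
  have h6 : ∫ V, nsq (RX X σ V *ᵥ f) ∂(Γ (T d L)) ≤
      4 * ∫ V, nsq (RX X σ (cut cell G V) *ᵥ f) ∂(Γ (T d L)) := by linarith
  have := mul_le_mul_of_nonneg_left h6 (inv_nonneg.2 hN.le)
  linarith

theorem nsq_e (k : T d L) : nsq (fun x => e k x) = NN d L := by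
  unfold nsq
  simp only [norm_e]
  rw [one_pow, Finset.sum_const, nsmul_eq_mul, mul_one, Finset.card_univ, card_T]

/-- first bound for the mean square -/
theorem NX_bd1 (hDEC : S_DEC) (hAV : S_AV) (H : Dat cell χ M ℓ G E τ δ t σ τ₀ θ Q g p v c K X)
    (k : T d L) : NX X σ k ≤ 80 / t ^ 2 := by
  have hN := NN_pos (d := d) (L := L)
  have hδ := H.hδ
  have ht := H.ht
  refine (NX_le hDEC H k).trans ?_
  obtain ⟨-, h2, -, -⟩ := hAV d L n ℓ cell χ M H.tl G p v H.gd H.hp H.hv E δ H.hδ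
    (fun x => e k x) (fun x => (norm_e k x).le)
  have h3 := cut_mean_bd hDEC H (fun x => e k x) (20 * δ / t ^ 2 * (δ⁻¹ * NN d L)) fun V =>
    (H.loc V _).1.trans (mul_le_mul_of_nonneg_left h2 (by positivity))
  have h4 := mul_le_mul_of_nonneg_left h3 (inv_nonneg.2 hN.le)
  calc 4 * ((NN d L)⁻¹ * ∫ V, nsq (RX X σ (cut cell G V) *ᵥ fun x => e k x) ∂(Γ (T d L)))
      ≤ 4 * ((NN d L)⁻¹ * (20 * δ / t ^ 2 * (δ⁻¹ * NN d L))) := by linarith
    _ = 80 / t ^ 2 := by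
        field_simp
        ring

/-- second bound for the mean square -/
theorem NX_bd2 (hDEC : S_DEC) (hAV : S_AV) (H : Dat cell χ M ℓ G E τ δ t σ τ₀ θ Q g p v c K X)
    (k : T d L) : ‖X k‖ ^ 2 * NX X σ k ≤
      8 + 320 * σ ^ 2 * (δ / t ^ 2) * (g + δ⁻¹ * Real.sqrt (3 * p)) := by
  have hN := NN_pos (d := d) (L := L)
  have hδ := H.hδ
  have ht := H.ht
  set f : T d L → ℂ := fun x => e k x with hf
  obtain ⟨-, -, h3, h4⟩ := hAV d L n ℓ cell χ M H.tl G p v H.gd H.hp H.hv E δ H.hδ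
    f (fun x => (norm_e k x).le)
  have h1 : ∀ V, ‖X k‖ ^ 2 * nsq (RX X σ (cut cell G V) *ᵥ f) ≤
      2 * NN d L + 2 * σ ^ 2 * (20 * δ / t ^ 2 *
        AX χ E δ (fun x => (cut cell G V x : ℂ) * f x)) := by
    intro V
    set U := cut cell G V with hU
    set g' : T d L → ℂ := fun x => (U x : ℂ) * f x with hg'
    have e1 : HX X σ U *ᵥ f = fun x => X k * f x + σ * g' x := by
      funext x
      rw [HX_mulVec]
      have : (CV X *ᵥ f) x = X k * f x := CV_e X k x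
      rw [this, hg']
      ring
    have e2 : RX X σ U *ᵥ (HX X σ U *ᵥ f) = f := by
      rw [Matrix.mulVec_mulVec, mul_HX H.hc H.hD, Matrix.one_mulVec]
    have e3 : X k • (RX X σ U *ᵥ f) = fun x => f x + -((σ : ℂ) • (RX X σ U *ᵥ g')) x := by
      have e4 : (fun x => X k * f x + σ * g' x) = X k • f + (σ : ℂ) • g' := by
        funext x
        simp
      rw [e1, e4, Matrix.mulVec_add, Matrix.mulVec_smul, Matrix.mulVec_smul] at e2
      funext x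
      have := congrFun e2 x
      rw [Pi.add_apply] at this
      rw [← this]
      ring
    have e5 : ‖X k‖ ^ 2 * nsq (RX X σ U *ᵥ f) = nsq (X k • (RX X σ U *ᵥ f)) :=
      (nsq_smul _ _).symm
    rw [e5, e3]
    refine (nsq_add2 _ _).trans ?_
    have e6 : nsq (fun x => -((σ : ℂ) • (RX X σ U *ᵥ g')) x) = σ ^ 2 * nsq (RX X σ U *ᵥ g') := by
      have : nsq (fun x => -((σ : ℂ) • (RX X σ U *ᵥ g')) x) = nsq ((σ : ℂ) • (RX X σ U *ᵥ g')) := by
        unfold nsq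
        simp only [norm_neg]
      rw [this, nsq_smul, Complex.norm_real, Real.norm_eq_abs, sq_abs]
    rw [e6, hf, nsq_e]
    have e7 := (H.loc V g').1
    have e8 := mul_le_mul_of_nonneg_left e7 (by positivity : 0 ≤ 2 * σ ^ 2)
    linarith
  have h5 : ‖X k‖ ^ 2 * ∫ V, nsq (RX X σ (cut cell G V) *ᵥ f) ∂(Γ (T d L)) ≤
      2 * NN d L + 2 * σ ^ 2 * (20 * δ / t ^ 2 *
        ∫ V, AX χ E δ (fun x => (cut cell G V x : ℂ) * f x) ∂(Γ (T d L))) := by
    rw [← integral_const_mul, ← integral_const_mul, ← integral_const_mul]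
    have i1 := ((h3.const_mul (20 * δ / t ^ 2)).const_mul (2 * σ ^ 2))
    have e1 : 2 * NN d L + ∫ V, 2 * σ ^ 2 * (20 * δ / t ^ 2 *
        AX χ E δ (fun x => (cut cell G V x : ℂ) * f x)) ∂(Γ (T d L)) =
        ∫ V, (2 * NN d L + 2 * σ ^ 2 * (20 * δ / t ^ 2 *
        AX χ E δ (fun x => (cut cell G V x : ℂ) * f x))) ∂(Γ (T d L)) := by
      rw [integral_add (integrable_const _) i1, integral_const]
      simp
    rw [e1]
    exact integral_mono ((H.cut_int hDEC f).const_mul _) ((integrable_const _).add i1) h1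
  have h6 := NX_le hDEC H k
  have h7 : (NN d L)⁻¹ * ∑ k : T d L, (J E δ k)⁻¹ + δ⁻¹ * Real.sqrt (3 * p) ≤
      g + δ⁻¹ * Real.sqrt (3 * p) := by linarith [H.hg]
  have h8 : ∫ V, AX χ E δ (fun x => (cut cell G V x : ℂ) * f x) ∂(Γ (T d L)) ≤
      2 * (g + δ⁻¹ * Real.sqrt (3 * p)) * NN d L := by
    refine h4.trans ?_
    exact mul_le_mul_of_nonneg_right (by linarith) hN.le
  have h9 : ‖X k‖ ^ 2 * NX X σ k ≤ 4 * ((NN d L)⁻¹ * (2 * NN d L + 2 * σ ^ 2 * (20 * δ / t ^ 2 *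
      (2 * (g + δ⁻¹ * Real.sqrt (3 * p)) * NN d L)))) := by
    have a1 := mul_le_mul_of_nonneg_left h6 (sq_nonneg ‖X k‖)
    have a2 : 2 * σ ^ 2 * (20 * δ / t ^ 2 *
        ∫ V, AX χ E δ (fun x => (cut cell G V x : ℂ) * f x) ∂(Γ (T d L))) ≤
        2 * σ ^ 2 * (20 * δ / t ^ 2 * (2 * (g + δ⁻¹ * Real.sqrt (3 * p)) * NN d L)) := by
      refine mul_le_mul_of_nonneg_left ?_ (by positivity)
      exact mul_le_mul_of_nonneg_left h8 (by positivity)
    have a3 := mul_le_mul_of_nonneg_left (h5.trans (by linarith : _ ≤ 2 * NN d L + 2 * σ ^ 2 *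
      (20 * δ / t ^ 2 * (2 * (g + δ⁻¹ * Real.sqrt (3 * p)) * NN d L))))
      (inv_nonneg.2 hN.le)
    calc ‖X k‖ ^ 2 * NX X σ k ≤ ‖X k‖ ^ 2 * (4 * ((NN d L)⁻¹ *
          ∫ V, nsq (RX X σ (cut cell G V) *ᵥ f) ∂(Γ (T d L)))) := a1
      _ = 4 * ((NN d L)⁻¹ * (‖X k‖ ^ 2 *
          ∫ V, nsq (RX X σ (cut cell G V) *ᵥ f) ∂(Γ (T d L)))) := by ring
      _ ≤ _ := by linarith
  refine h9.trans (le_of_eq ?_)
  field_simp
  ring

end Pool.Agent.Run7.h47.V
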