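import Pool.Agent.Run7.h47.V.Bnd1

/-! Piece BND, part 2: the variance. -/

set_option autoImplicit false
set_option linter.unusedSectionVars false

open scoped BigOperators Matrix
open MeasureTheory

namespace Pool.Agent.Run7.h47.V

open Pool.Agent.W788.MFP.Four Pool.Agent.W788.MFP.Form Pool.Agent.W788.BK
open Pool.Agent.W788.MFP.Gm (Γ)

variable {d L : ℕ} [NeZero L] {n ℓ : ℕ} [NeZero n]
variable {cell : T d L → T d n} {χ : T d n → T d L → ℝ} {M : T d n → Finset (T d n)}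
  {G : T d n → Set (T d L → ℝ)} {E τ δ t σ τ₀ θ Q g p v c K : ℝ} {X : T d L → ℂ}

theorem mulVec_single0 (A : Matrix (T d L) (T d L) ℂ) (y : T d L) :
    (A *ᵥ Pi.single 0 1) y = A y 0 := by
  rw [Matrix.mulVec_single_one]
  rfl

theorem sq_four {a b a' b' da db cc : ℝ} (h1 : a ≤ 2 * a' + 2 * da) (h2 : b ≤ 2 * b' + 2 * db)
    (hb : b ≤ cc) (ha' : a' ≤ cc) (ha0' : 0 ≤ a') (hb0 : 0 ≤ b) (hda : 0 ≤ da) (hdb : 0 ≤ db) :
    a * b ≤ 4 * (a' * b') + 4 * cc * db + 2 * cc * da := by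
  have e1 : a * b ≤ (2 * a' + 2 * da) * b := mul_le_mul_of_nonneg_right h1 hb0
  have e2 : a' * b ≤ a' * (2 * b' + 2 * db) := mul_le_mul_of_nonneg_left h2 ha0'
  have e3 : da * b ≤ da * cc := mul_le_mul_of_nonneg_left hb hda
  have e4 : a' * db ≤ cc * db := mul_le_mul_of_nonneg_right ha' hdb
  nlinarith

/-- the variance -/
theorem VX_bd (hL4 : S_L4) (hDEC : S_DEC) (hAV : S_AV) (hIBP : S_IBP)
    (H : Dat cell χ M ℓ G E τ δ t σ τ₀ θ Q g p v c K X) :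
    VX X σ ≤ 15 * σ ^ 2 * (4 * (2 ^ d * (Q * (100 * δ ^ 2 / t ^ 2 * g) ^ 2 +
      lw d L θ * (20 * δ / t ^ 2 * g) ^ 2)) + 6 * K * (c ^ 4)⁻¹) := by
  have hδ := H.hδ
  have ht := H.ht
  have hc := H.hc
  have hσ2 : 0 ≤ 15 * σ ^ 2 := by positivity
  refine ((hIBP d L X c σ hc H.hD).1).trans (mul_le_mul_of_nonneg_left ?_ hσ2)
  have H' := H.neg
  set X' : T d L → ℂ := fun k => X (-k) with hX'
  set f : T d L → ℂ := Pi.single 0 1 with hf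
  obtain ⟨hA, -, -, -⟩ := hAV d L n ℓ cell χ M H.tl G p v H.gd H.hp H.hv E δ hδ 0
    (fun x => by simp)
  have hA0 : AX χ E δ f ≤ g := by
    rw [hf, hA 0]
    exact H.hg
  have hA00 : 0 ≤ AX χ E δ f := by
    rw [hf, hA 0]
    refine mul_nonneg (inv_nonneg.2 NN_pos.le) (Finset.sum_nonneg fun k _ => ?_)
    exact (inv_pos.2 (J_pos E δ hδ k)).le
  have hg0 : 0 ≤ g := hA00.trans hA0
  have hlw := lw_nonneg (d := d) (L := L) θ
  have hJ0 : ∀ u : T d L → ℂ, 0 ≤ BX χ E δ u := fun u =>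
    Finset.sum_nonneg fun j _ => qc_nonneg _ _ fun k => (J_pos E δ hδ k).le
  set b1 : ℝ := 100 * δ ^ 2 / t ^ 2 * g with hb1
  set b2 : ℝ := 20 * δ / t ^ 2 * g with hb2
  have hb10 : 0 ≤ b1 := by positivity
  have hb20 : 0 ≤ b2 := by positivity
  -- the pointwise bound
  have hpt : ∀ V, ∑ y, ‖RX X σ V 0 y‖ ^ 2 * ‖RX X σ V y 0‖ ^ 2 ≤
      4 * (2 ^ d * (Q * b1 ^ 2 + lw d L θ * b2 ^ 2)) +
      4 * (c ^ 2)⁻¹ * nsq (Df cell G X σ V *ᵥ f) + 2 * (c ^ 2)⁻¹ * nsq (Df cell G X' σ V *ᵥ f) := by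
    intro V
    set U := cut cell G V with hU
    set u : T d L → ℂ := RX X σ U *ᵥ f with hu
    set w : T d L → ℂ := RX X' σ U *ᵥ f with hw
    have hu1 : ∀ y, u y = RX X σ U y 0 := fun y => mulVec_single0 _ y
    have hw1 : ∀ y, w y = RX X σ U 0 y := fun y => by
      rw [hw, mulVec_single0, RX_swap X σ U 0 y]
    have hL := hL4 d L n ℓ cell χ M H.tl E δ θ Q hδ H.hQ0 H.hQ u w
    have lu := H.loc V f
    have lw' := H'.loc V f
    have k1 : 0 ≤ 100 * δ ^ 2 / t ^ 2 := by positivity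
    have k2 : 0 ≤ 20 * δ / t ^ 2 := by positivity
    have bu : BX χ E δ u ≤ b1 := lu.2.trans (mul_le_mul_of_nonneg_left hA0 k1)
    have bw : BX χ E δ w ≤ b1 := lw'.2.trans (mul_le_mul_of_nonneg_left hA0 k1)
    have nu : nsq u ≤ b2 := lu.1.trans (mul_le_mul_of_nonneg_left hA0 k2)
    have nw : nsq w ≤ b2 := lw'.1.trans (mul_le_mul_of_nonneg_left hA0 k2)
    have h1 : ∑ x, ‖u x‖ ^ 2 * ‖w x‖ ^ 2 ≤ 2 ^ d * (Q * b1 ^ 2 + lw d L θ * b2 ^ 2) := by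
      refine hL.trans ?_
      refine mul_le_mul_of_nonneg_left ?_ (by positivity)
      refine add_le_add ?_ ?_
      · refine mul_le_mul_of_nonneg_left ?_ H.hQ0
        rw [sq]
        exact mul_le_mul bu bw (hJ0 w) hb10
      · refine mul_le_mul_of_nonneg_left ?_ hlw
        rw [sq]
        exact mul_le_mul nu nw (nsq_nonneg w) hb20
    have h2 : ∀ y, ‖RX X σ V 0 y‖ ^ 2 * ‖RX X σ V y 0‖ ^ 2 ≤
        4 * (‖w y‖ ^ 2 * ‖u y‖ ^ 2) + 4 * (c ^ 2)⁻¹ * ‖(Df cell G X σ V *ᵥ f) y‖ ^ 2 +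
          2 * (c ^ 2)⁻¹ * ‖(Df cell G X' σ V *ᵥ f) y‖ ^ 2 := by
      intro y
      have e1 : RX X σ V 0 y = w y + (Df cell G X' σ V *ᵥ f) y := by
        rw [hw1, mulVec_single0]
        unfold Df
        rw [Matrix.sub_apply, RX_swap X σ V 0 y, RX_swap X σ U 0 y]
        ring
      have e2 : RX X σ V y 0 = u y + (Df cell G X σ V *ᵥ f) y := by
        rw [hu1, mulVec_single0]
        unfold Df
        rw [Matrix.sub_apply]
        ring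
      have e3 : ∀ a b : ℂ, ‖a + b‖ ^ 2 ≤ 2 * ‖a‖ ^ 2 + 2 * ‖b‖ ^ 2 := by
        intro a b
        nlinarith [sq_nonneg (‖a‖ - ‖b‖), norm_nonneg (a + b), norm_add_le a b]
      have hcc : ∀ z w' : T d L, ∀ W, ‖RX X σ W z w'‖ ^ 2 ≤ (c ^ 2)⁻¹ := by
        intro z w' W
        rw [← inv_pow]
        exact pow_le_pow_left₀ (norm_nonneg _) (RX_bd hc H.hD σ W z w') 2
      refine sq_four (cc := (c ^ 2)⁻¹) ?_ ?_ (hcc _ _ _) ?_ (by positivity) (by positivity)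
        (by positivity) (by positivity)
      · rw [e1]
        exact e3 _ _
      · rw [e2]
        exact e3 _ _
      · rw [hw1]
        exact hcc _ _ _
    refine (Finset.sum_le_sum fun y _ => h2 y).trans ?_
    rw [Finset.sum_add_distrib, Finset.sum_add_distrib, ← Finset.mul_sum, ← Finset.mul_sum,
      ← Finset.mul_sum]
    have e4 : ∑ y, ‖w y‖ ^ 2 * ‖u y‖ ^ 2 = ∑ y, ‖u y‖ ^ 2 * ‖w y‖ ^ 2 :=
      Finset.sum_congr rfl fun y _ => mul_comm _ _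
    rw [e4]
    have e5 : ∑ y, ‖(Df cell G X σ V *ᵥ f) y‖ ^ 2 = nsq (Df cell G X σ V *ᵥ f) := rfl
    have e6 : ∑ y, ‖(Df cell G X' σ V *ᵥ f) y‖ ^ 2 = nsq (Df cell G X' σ V *ᵥ f) := rfl
    rw [e5, e6]
    linarith
  have i1 := Df_int hDEC H f
  have i2 := Df_int hDEC H' f
  have hmean : ∀ (X'' : T d L → ℂ), Dat cell χ M ℓ G E τ δ t σ τ₀ θ Q g p v c K X'' →
      ∫ V, nsq (Df cell G X'' σ V *ᵥ f) ∂(Γ (T d L)) ≤ K * (c ^ 2)⁻¹ := by
    intro X'' H''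
    refine (Df_mean hDEC H'' f).trans ?_
    refine mul_le_mul_of_nonneg_left ?_ H.K0
    refine cut_mean_bd hDEC H'' f _ fun V => ?_
    have := H''.cut_bd V f
    rw [hf, nsq_single, mul_one] at this
    exact this
  have m1 := hmean X H
  have m2 := hmean X' H'
  have hint : Integrable (fun V => 4 * (2 ^ d * (Q * b1 ^ 2 + lw d L θ * b2 ^ 2)) +
      4 * (c ^ 2)⁻¹ * nsq (Df cell G X σ V *ᵥ f) +
      2 * (c ^ 2)⁻¹ * nsq (Df cell G X' σ V *ᵥ f)) (Γ (T d L)) :=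
    ((integrable_const _).add (i1.const_mul _)).add (i2.const_mul _)
  have hS0 : BC fun V : T d L → ℝ => ∑ y, ‖RX X σ V 0 y‖ ^ 2 * ‖RX X σ V y 0‖ ^ 2 :=
    BC.sum _ fun y _ => ((RX_BC hc H.hD σ 0 y).nsq).mulR ((RX_BC hc H.hD σ y 0).nsq)
  refine (integral_mono hS0.intR hint hpt).trans ?_
  set C1 : ℝ := 4 * (2 ^ d * (Q * b1 ^ 2 + lw d L θ * b2 ^ 2)) with hC1
  have j1 : ∫ V, (C1 + 4 * (c ^ 2)⁻¹ * nsq (Df cell G X σ V *ᵥ f) +
      2 * (c ^ 2)⁻¹ * nsq (Df cell G X' σ V *ᵥ f)) ∂(Γ (T d L)) =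
      ∫ V, (C1 + 4 * (c ^ 2)⁻¹ * nsq (Df cell G X σ V *ᵥ f)) ∂(Γ (T d L)) +
      ∫ V, 2 * (c ^ 2)⁻¹ * nsq (Df cell G X' σ V *ᵥ f) ∂(Γ (T d L)) :=
    integral_add ((integrable_const _).add (i1.const_mul _)) (i2.const_mul _)
  have j2 : ∫ V, (C1 + 4 * (c ^ 2)⁻¹ * nsq (Df cell G X σ V *ᵥ f)) ∂(Γ (T d L)) =
      C1 + ∫ V, 4 * (c ^ 2)⁻¹ * nsq (Df cell G X σ V *ᵥ f) ∂(Γ (T d L)) := by
    have := integral_add (μ := Γ (T d L)) (integrable_const C1) (i1.const_mul (4 * (c ^ 2)⁻¹))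
    rw [integral_const] at this
    simpa using this
  rw [j1, j2, integral_const_mul, integral_const_mul]
  have e1 : (c ^ 4)⁻¹ = (c ^ 2)⁻¹ * (c ^ 2)⁻¹ := by
    field_simp
  have e2 : 0 ≤ (c ^ 2)⁻¹ := by positivity
  have e3 := mul_le_mul_of_nonneg_left m1 (by positivity : 0 ≤ 4 * (c ^ 2)⁻¹)
  have e4 := mul_le_mul_of_nonneg_left m2 (by positivity : 0 ≤ 2 * (c ^ 2)⁻¹)
  rw [e1]
  linarith

end Pool.Agent.Run7.h47.V
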