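import Pool.Agent.W788.MFP.Form

/-! Translation invariant operators on the torus: definitions. -/

set_option autoImplicit false

open scoped BigOperators Matrix
open MeasureTheory

namespace Pool.Agent.Run7.h47.V

open Pool.Agent.W788.MFP.Four

noncomputable section

/-- the point `k / L` -/
def pt {d L : ℕ} (k : T d L) : UnitAddTorus (Fin d) := fun i => (((k i).val / L : ℝ) : UnitAddCircle)

/-- the matrix of the translation invariant operator with symbol `Y` on the torus -/
def CV {d L : ℕ} [NeZero L] (Y : T d L → ℂ) : Matrix (T d L) (T d L) ℂ :=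
  fun x y => (NN d L : ℂ)⁻¹ * ∑ k, Y k * e k (x - y)

/-- the resolvent of `Y + v` on the torus -/
def RT {d L : ℕ} [NeZero L] (Y : T d L → ℂ) (v : T d L → ℝ) : Matrix (T d L) (T d L) ℂ :=
  (CV Y + Matrix.diagonal fun x => (v x : ℂ))⁻¹

/-- the symbol of the averaged resolvent on the torus -/
def GT {d L : ℕ} [NeZero L] (ν : Measure ℝ) (Y : T d L → ℂ) (k : T d L) : ℂ :=
  (NN d L : ℂ)⁻¹ * ∑ x, ∑ y, (∫ v, RT Y v x y ∂(Measure.pi fun _ : T d L => ν)) * e k (y - x)

end

end Pool.Agent.Run7.h47.V
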