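import Pool.Agent.Run7.h47.V.Def
import Pool.Agent.N896.KS.SEG1

/-! Interface for the passage from the torus to the lattice. -/

set_option autoImplicit false

open scoped BigOperators Matrix
open MeasureTheory

namespace Pool.Agent.Run7.h47.V

open Pool.Agent.W788.MFP.Four Pool.Agent.W792.LL Pool.Agent.W792.WA Pool.Agent.N896.KS

noncomputable section

/-- The averaged resolvent of `X + v` on `ℤ^d` is the limit of the averaged resolvents on the tori,
uniformly in the momentum (here `X` is any continuous symbol with `Im X ≤ -c < 0`). -/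
def S_TRF : Prop :=
  ∀ (ν : Measure ℝ) [IsProbabilityMeasure ν] (d : ℕ) (c : ℝ) (X : C(UnitAddTorus (Fin d), ℂ))
    (h : ∀ k, X k - Complex.I ≠ 0), 0 < d → 0 < c → (∀ k, (X k).im ≤ -c) → ∀ ε : ℝ, 0 < ε →
    ∃ L₀ : ℕ, ∀ (L : ℕ) [NeZero L], L₀ ≤ L → ∀ k : T d L,
      ‖GS ν X h (pt k) - GT ν (fun q : T d L => X (pt (-q))) (-k)‖ ≤ ε

end

end Pool.Agent.Run7.h47.V
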