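import Pool.Agent.Run7.h47.V.Res
import Pool.Agent.Run7.h47.V.Ifc

/-! Statements of the parts of the project VI (MP_1906c1_mp): purely absolutely continuous spectrum
after a change of the kinetic energy of size `|σ|^(2+κ)`, below the scale of the self-energy. -/

set_option autoImplicit false

open scoped BigOperators Matrix
open MeasureTheory

namespace Pool.Agent.Run7.h47.V

open Pool.Agent.W788.MFP.Four Pool.Agent.W788.MFP.Form Pool.Agent.W788.BK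
open Pool.Agent.W788.MFP.Gm (Γ)

noncomputable section

/-! ## A. Tilings of the torus -/

/-- Cells and patches on the torus of side `L = n ℓ`: `cell x` is the cell of `x`, `χ j` is the
cutoff of the patch `j`, `M j` are the cells which the patch `j` meets. -/
structure Tl (d L n ℓ : ℕ) [NeZero L] [NeZero n] (cell : T d L → T d n)
    (χ : T d n → T d L → ℝ) (M : T d n → Finset (T d n)) : Prop where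
  card_cell : ∀ c, (Finset.univ.filter fun x => cell x = c).card ≤ ℓ ^ d
  card_M : ∀ j, (M j).card ≤ 2 ^ d
  supp : ∀ j x, χ j x ≠ 0 → cell x ∈ M j
  sq : ∀ x, ∑ j, χ j x ^ 2 = 1
  four : ∀ x, 1 ≤ 2 ^ d * ∑ j, χ j x ^ 4
  grad : ∀ x i, ∑ j, (χ j (x + Pi.single i 1) - χ j x) ^ 2 ≤ 10 / (ℓ : ℝ) ^ 2

/-- PIECE TL. Tilings exist. -/
def S_TL : Prop :=
  ∀ (d L n ℓ : ℕ) [NeZero L] [NeZero n], 2 ≤ n → 1 ≤ ℓ → L = n * ℓ →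
    ∃ cell χ M, Tl d L n ℓ cell χ M

/-! ## B. The form bound for one cell -/

/-- PIECE CELL. The form bound for the potential in a set `Q` of sites, with an event which depends
only on the potential in `Q` and a probability proportional to the size of `Q`. -/
def S_CELL : Prop :=
  ∀ (d L : ℕ) [NeZero L], 3 ≤ d → ∀ (E δ t : ℝ), 1 / (L : ℝ) ≤ δ → δ ≤ 1 / 2 → 0 < t →
    ∀ p : ℕ, p ≠ 0 → ∀ Q : Finset (T d L), ∃ G : Set (T d L → ℝ), MeasurableSet G ∧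
      (∀ V V' : T d L → ℝ, (∀ x ∈ Q, V x = V' x) → (V ∈ G ↔ V' ∈ G)) ∧
      (Γ (T d L)).real Gᶜ ≤ (2 * p * gg δ * δ⁻¹ / t ^ 2) ^ p * Q.card ∧
      ∀ V ∈ G, ∀ w : T d L → ℝ, |∑ x ∈ Q, V x * w x ^ 2| ≤ t * q (J E δ) w

/-! ## C. Deterministic estimates -/

/-- sum over the patches of the form of `1/J` -/
def AX {d L n : ℕ} [NeZero L] [NeZero n] (χ : T d n → T d L → ℝ) (E δ : ℝ) (f : T d L → ℂ) : ℝ :=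
  ∑ j, qc (fun k => (J E δ k)⁻¹) (fun x => (χ j x : ℂ) * f x)

/-- sum over the patches of the form of `J` -/
def BX {d L n : ℕ} [NeZero L] [NeZero n] (χ : T d n → T d L → ℝ) (E δ : ℝ) (u : T d L → ℂ) : ℝ :=
  ∑ j, qc (J E δ) (fun x => (χ j x : ℂ) * u x)

/-- PIECE LOC. The localized estimate for the resolvent. -/
def S_LOC : Prop :=
  ∀ (d L n ℓ : ℕ) [NeZero L] [NeZero n] (cell : T d L → T d n) (χ : T d n → T d L → ℝ)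
    (M : T d n → Finset (T d n)), Tl d L n ℓ cell χ M → 1 ≤ d →
  ∀ (E τ δ t σ τ₀ : ℝ) (X : T d L → ℂ) (V : T d L → ℝ), 0 < δ → 0 < t → t ≤ δ → 0 ≤ τ₀ →
    |σ| * (2 ^ d * τ₀) ≤ 1 / 2 → 200 * d ≤ δ * ℓ →
    (∀ k, ‖X k - ((adj k : ℂ) - E - τ * Complex.I)‖ ≤ δ / 20) →
    (∀ k, t * (100 * δ ^ 2 / ((adj k - E) ^ 2 + 100 * δ ^ 2)) ≤ -(X k).im) →
    (∀ (c : T d n) (w : T d L → ℝ),
      |∑ x ∈ Finset.univ.filter (fun x => cell x = c), V x * w x ^ 2| ≤ τ₀ * q (J E δ) w) →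
    ∀ u f : T d L → ℂ, HX X σ V *ᵥ u = f →
      nsq u ≤ 20 * δ / t ^ 2 * AX χ E δ f ∧ BX χ E δ u ≤ 100 * δ ^ 2 / t ^ 2 * AX χ E δ f

/-- PIECE L4. The bilinear estimate with patches. -/
def S_L4 : Prop :=
  ∀ (d L n ℓ : ℕ) [NeZero L] [NeZero n] (cell : T d L → T d n) (χ : T d n → T d L → ℝ)
    (M : T d n → Finset (T d n)), Tl d L n ℓ cell χ M →
  ∀ (E δ θ Q : ℝ), 0 < δ → 0 ≤ Q →
    (∀ P : T d L, ¬ Low θ P → ∑ k : T d L, (J E δ k * J E δ (k + P))⁻¹ ≤ Q * NN d L) →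
    ∀ u w : T d L → ℂ, ∑ x, ‖u x‖ ^ 2 * ‖w x‖ ^ 2 ≤
      2 ^ d * (Q * (BX χ E δ u * BX χ E δ w) + lw d L θ * (nsq u * nsq w))

/-! ## D. The cut off potential -/

/-- Good events, one for each cell. -/
structure Gd {d L n : ℕ} [NeZero L] [NeZero n] (cell : T d L → T d n)
    (G : T d n → Set (T d L → ℝ)) (p v : ℝ) : Prop where
  meas : ∀ c, MeasurableSet (G c)
  loc : ∀ (c : T d n) (V V' : T d L → ℝ), (∀ x, cell x = c → V x = V' x) → (V ∈ G c ↔ V' ∈ G c)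
  prob : ∀ c, (Γ (T d L)).real (G c)ᶜ ≤ p
  bd : ∀ (V : T d L → ℝ) (x : T d L), V ∈ G (cell x) → |V x| ≤ v

open Classical in
/-- The potential, set to zero in the bad cells. -/
def cut {d L n : ℕ} (cell : T d L → T d n) (G : T d n → Set (T d L → ℝ)) (V : T d L → ℝ) :
    T d L → ℝ := fun x => if V ∈ G (cell x) then V x else 0

/-- PIECE DEC. The bad cells change the resolvent very little in the mean. -/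
def S_DEC : Prop :=
  ∀ (d L n : ℕ) [NeZero L] [NeZero n] (cell : T d L → T d n) (G : T d n → Set (T d L → ℝ))
    (p v : ℝ), Gd cell G p v → 0 ≤ p → 0 ≤ v → ∀ (X : T d L → ℂ) (c σ : ℝ), 0 < c → Dis c X →
    (∀ a b : T d L, Measurable fun V => RX X σ (cut cell G V) a b) ∧
    ∀ f : T d L → ℂ,
      ∫ V, nsq ((RX X σ V - RX X σ (cut cell G V)) *ᵥ f) ∂(Γ (T d L)) ≤
        ((c ^ 2)⁻¹ * σ ^ 2 * Real.sqrt (3 * p) * (2 * (1 + (c ^ 2)⁻¹ * σ ^ 2 * v ^ 2))) *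
          ∫ V, nsq (RX X σ (cut cell G V) *ᵥ f) ∂(Γ (T d L))

/-- PIECE AV. The mean of the form of `1/J` at the cut off potential. -/
def S_AV : Prop :=
  ∀ (d L n ℓ : ℕ) [NeZero L] [NeZero n] (cell : T d L → T d n) (χ : T d n → T d L → ℝ)
    (M : T d n → Finset (T d n)), Tl d L n ℓ cell χ M →
  ∀ (G : T d n → Set (T d L → ℝ)) (p v : ℝ), Gd cell G p v → 0 ≤ p → 0 ≤ v →
  ∀ (E δ : ℝ), 0 < δ → ∀ g : T d L → ℂ, (∀ x, ‖g x‖ ≤ 1) →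
    (∀ y : T d L, AX χ E δ (Pi.single y 1) = (NN d L)⁻¹ * ∑ k : T d L, (J E δ k)⁻¹) ∧
    AX χ E δ g ≤ δ⁻¹ * NN d L ∧
    Integrable (fun V => AX χ E δ (fun x => (cut cell G V x : ℂ) * g x)) (Γ (T d L)) ∧
    ∫ V, AX χ E δ (fun x => (cut cell G V x : ℂ) * g x) ∂(Γ (T d L)) ≤
      2 * ((NN d L)⁻¹ * ∑ k : T d L, (J E δ k)⁻¹ + δ⁻¹ * Real.sqrt (3 * p)) * NN d L

/-! ## E. The mean of the resolvent -/

/-- mean of a diagonal entry -/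
def mX {d L : ℕ} [NeZero L] (X : T d L → ℂ) (σ : ℝ) : ℂ := ∫ V, RX X σ V 0 0 ∂(Γ (T d L))

/-- variance of a diagonal entry -/
def VX {d L : ℕ} [NeZero L] (X : T d L → ℂ) (σ : ℝ) : ℝ :=
  ∫ V, ‖RX X σ V 0 0 - mX X σ‖ ^ 2 ∂(Γ (T d L))

/-- mean square of the resolvent applied to a plane wave -/
def NX {d L : ℕ} [NeZero L] (X : T d L → ℂ) (σ : ℝ) (k : T d L) : ℝ :=
  (NN d L)⁻¹ * ∫ V, nsq (RX X σ V *ᵥ fun x => e k x) ∂(Γ (T d L))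

/-- the symbol of the mean of the resolvent -/
def GX {d L : ℕ} [NeZero L] (X : T d L → ℂ) (σ : ℝ) (k : T d L) : ℂ :=
  (NN d L : ℂ)⁻¹ * ∑ x, ∑ y, (∫ V, RX X σ V x y ∂(Γ (T d L))) * e k (y - x)

/-- PIECE IBP. Poincare inequality, integration by parts, dependence on the imaginary part. -/
def S_IBP : Prop :=
  ∀ (d L : ℕ) [NeZero L] (X : T d L → ℂ) (c σ : ℝ), 0 < c → Dis c X →
    (VX X σ ≤ 15 * σ ^ 2 * ∫ V, ∑ y, ‖RX X σ V 0 y‖ ^ 2 * ‖RX X σ V y 0‖ ^ 2 ∂(Γ (T d L))) ∧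
    (∀ k, ∃ r : ℂ, X k * GX X σ k = 1 + σ ^ 2 * mX X σ * GX X σ k + σ ^ 2 * r ∧
      ‖r‖ ^ 2 ≤ VX X σ * NX X σ k) ∧
    mX X σ = (NN d L : ℂ)⁻¹ * ∑ k, GX X σ k ∧ 0 ≤ (mX X σ).im ∧ ‖mX X σ‖ ≤ c⁻¹ ∧
    ∀ s t : ℝ, 0 ≤ s → 0 ≤ t →
      ‖mX (fun k => X k - s * Complex.I) σ - mX (fun k => X k - t * Complex.I) σ‖ ≤
        |s - t| * (c ^ 2)⁻¹

/-! ## F. The equation for the diagonal entry -/

/-- PIECE SC. Solutions of the approximate equation for the diagonal entry. -/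
def S_SC : Prop :=
  ∀ d : ℕ, 3 ≤ d → ∀ a : ℝ, 0 < a → a < 2 * d → ∃ C₀ c₀ C₂ : ℝ, 1 ≤ C₀ ∧ 0 < c₀ ∧ 0 < C₂ ∧
    ∀ c₃ : ℝ, 0 < c₃ → ∃ ε₀ : ℝ, 0 < ε₀ ∧ ∀ x Y₁ : ℝ, 0 < x → x ≤ ε₀ → 0 < Y₁ → Y₁ ≤ ε₀ * x ^ 2 →
    ∃ L₀ : ℕ, ∀ (L : ℕ) [NeZero L], L₀ ≤ L → ∀ (E τ : ℝ), |E| ≤ a → 0 ≤ τ → τ ≤ 2 →
    ∀ X : T d L → ℂ, (∀ k, ‖X k - ((adj k : ℂ) - E - τ * Complex.I)‖ ≤ Y₁) →
      (∀ k, (X k).im ≤ -τ) →
      (x ^ 2 ≤ τ ∨ ∀ k, |adj k - E| ≤ C₂ * x ^ 2 → c₃ * Y₁ ≤ -(X k).im - τ) →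
    ∀ (m : ℂ) (r : T d L → ℂ), 0 ≤ m.im → ‖m‖ ≤ 2 * C₀ → (∀ k, ‖r k‖ * gg Y₁ ≤ ε₀) →
      m = (NN d L : ℂ)⁻¹ * ∑ k, (1 + r k) / (X k - x ^ 2 * m) →
      ‖m‖ ≤ C₀ ∧ c₀ ≤ m.im

/-! ## G. Bounds -/

/-- PIECE BND. The product of the variance and of the mean square is small. -/
def S_BND : Prop :=
  ∀ d : ℕ, 3 ≤ d → ∀ κ : ℝ, 0 < κ → κ < 1 / 21 → ∀ C_Y c_t ε : ℝ, 0 < C_Y → 0 < c_t → 0 < ε →
    ∃ s : ℝ, 0 < s ∧ s < 1 ∧ ∀ σ : ℝ, 0 < |σ| → |σ| ≤ s → ∃ ℓ : ℕ, 1 ≤ ℓ ∧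
    ∀ (n L : ℕ) [NeZero L], 2 ≤ n → L = n * ℓ → ∀ (E τ : ℝ) (X : T d L → ℂ), |E| ≤ 2 * d →
      (∀ k, ‖X k - ((adj k : ℂ) - E - τ * Complex.I)‖ ≤ C_Y * |σ| ^ (2 + 2 * κ)) →
      (∀ k, c_t * |σ| ^ (2 + 2 * κ) * (|σ| ^ 4 / ((adj k - E) ^ 2 + |σ| ^ 4)) ≤ -(X k).im) →
      ∀ k, VX X σ * NX X σ k * (‖X k‖ ^ 2 + (σ ^ 2 * Real.log (1 / |σ|)) ^ 2) ≤ ε ^ 2

/-- the class of symbols on the torus -/
structure CL {d L : ℕ} [NeZero L] (x E τ Y₁ t₀ c₃ C₂ : ℝ) (X : T d L → ℂ) : Prop where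
  near : ∀ k, ‖X k - ((adj k : ℂ) - E - τ * Complex.I)‖ ≤ Y₁
  im : ∀ k, (X k).im ≤ -τ
  dis : ∀ k, t₀ * (x ^ 4 / ((adj k - E) ^ 2 + x ^ 4)) ≤ -(X k).im
  shell : x ^ 2 ≤ τ ∨ ∀ k, |adj k - E| ≤ C₂ * x ^ 2 → c₃ * Y₁ ≤ -(X k).im - τ

/-- PIECE TOR. The self-energy on the torus. -/
def S_TOR : Prop :=
  ∀ d : ℕ, 3 ≤ d → ∀ a : ℝ, 0 < a → a < 2 * d → ∃ C_S c_S C₂ : ℝ, 0 < C_S ∧ 0 < c_S ∧
    c_S ≤ C_S ∧ 0 < C₂ ∧ ∀ κ : ℝ, 0 < κ → κ < 1 / 21 → ∀ C_Y c_t c₃ : ℝ, 0 < C_Y → 0 < c_t →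
    0 < c₃ → ∃ s : ℝ, 0 < s ∧ s < 1 ∧ ∀ x : ℝ, 0 < x → x ≤ s → ∃ ℓ n₀ : ℕ, 1 ≤ ℓ ∧
    ∀ (n L : ℕ) [NeZero L], n₀ ≤ n → L = n * ℓ → ∀ (E τ : ℝ) (X : T d L → ℂ), |E| ≤ a →
      0 ≤ τ → τ ≤ 1 →
      CL x E τ (C_Y * x ^ (2 + 2 * κ)) (c_t * x ^ (2 + 2 * κ)) c₃ C₂ X →
      ∀ k, (2 * (‖X k‖ + C_S))⁻¹ ≤ ‖GX X x k‖ ∧ ‖1 / GX X x k - X k‖ ≤ C_S * x ^ 2 ∧
        (1 / GX X x k - X k).im ≤ -(c_S * x ^ 2)

end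

end Pool.Agent.Run7.h47.V
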