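import Pool.Agent.Run7.h47.V.Iface
import Pool.Agent.N659.HB.Stm4

/-! Statements of the parts of the project VI (MP_1906c1_mp), continued: the lattice. -/

set_option autoImplicit false

open scoped BigOperators Matrix
open MeasureTheory ProbabilityTheory

namespace Pool.Agent.Run7.h47.V

open Pool.Agent.W792.LL Pool.Agent.W792.WA Pool.Agent.N659.HB

noncomputable section

/-- the class of symbols on the continuous torus -/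
structure CC {d : ℕ} (x E τ Y₁ t₀ c₃ C₂ : ℝ) (X : C(UnitAddTorus (Fin d), ℂ)) : Prop where
  near : ∀ k, ‖X k - ((adjm d k : ℂ) - E - τ * Complex.I)‖ ≤ Y₁
  im : ∀ k, (X k).im ≤ -τ
  dis : ∀ k, t₀ * (x ^ 4 / ((adjm d k - E) ^ 2 + x ^ 4)) ≤ -(X k).im
  shell : x ^ 2 ≤ τ ∨ ∀ k, |adjm d k - E| ≤ C₂ * x ^ 2 → c₃ * Y₁ ≤ -(X k).im - τ

/-- PIECE LAT. The self-energy on the lattice, from `S_TOR` and `S_TRF`. -/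
def S_LAT : Prop :=
  ∀ d : ℕ, 3 ≤ d → ∀ a : ℝ, 0 < a → a < 2 * d → ∃ C_S c_S C₂ : ℝ, 0 < C_S ∧ 0 < c_S ∧
    c_S ≤ C_S ∧ 0 < C₂ ∧ ∀ κ : ℝ, 0 < κ → κ < 1 / 21 → ∀ C_Y c_t c₃ : ℝ, 0 < C_Y → 0 < c_t →
    0 < c₃ → ∃ s : ℝ, 0 < s ∧ s < 1 ∧ ∀ x : ℝ, 0 < x → x ≤ s → ∀ γ : ℝ, 0 < γ →
    ∀ (E τ : ℝ) (X : C(UnitAddTorus (Fin d), ℂ)), |E| ≤ a → 0 ≤ τ → τ ≤ 1 →
      CC x E τ (C_Y * x ^ (2 + 2 * κ)) (c_t * x ^ (2 + 2 * κ)) c₃ C₂ X →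
      ∃ S : C(UnitAddTorus (Fin d), ℂ), ∀ k,
        psi (gaussianReal 0 ⟨(γ * x) ^ 2, sq_nonneg _⟩)
          (toC fun k => cayx ((γ : ℂ) * X k) 0) k = cayx (S k) 0 ∧
        ‖S k‖ ≤ γ * (C_S * x ^ 2) ∧ (S k).im ≤ -(γ * (c_S * x ^ 2))

/-- PIECE GAPV. The gap, from `S_LAT`. -/
def S_GAPV : Prop :=
  ∀ (ψ : C(UnitAddCircle, ℝ)), IsSemi ψ → ∀ d : ℕ, 3 ≤ d → ∀ a : ℝ, 0 < a → a < 2 * d →
    ∀ κ : ℝ, 0 < κ → κ < 1 / 21 → ∃ s : ℝ, 0 < s ∧ s < 1 ∧ ∀ x : ℝ, 0 < x → x ≤ s →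
    ∃ g : ℝ, 0 < g ∧ ∀ (ρ' : Measure ℝ) [IsProbabilityMeasure ρ'],
      ρ' (Set.Icc (-((2 * d / a * (x ^ (2 + κ) / 2)) / 8))
        ((2 * d / a * (x ^ (2 + κ) / 2)) / 8))ᶜ = 0 →
      ∀ z ∈ Zs d, ∀ s', IsFix (gaussianReal 0 ⟨(2 * d / a * x) ^ 2, sq_nonneg _⟩)
        ((lev ψ (2 * d / a * (x ^ (2 + κ) / 2))).conv ρ')
        (wz ((2 * (d : ℝ) / a) • (adjm d - ContinuousMap.const _ (-a))) z) s' → ‖s'‖ ≤ 1 - g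

end

end Pool.Agent.Run7.h47.V
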