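import Pool.Agent.Run7.h47.V.Iface

/-! Piece LOC, part 1: forms, the kinetic operator, commutators. -/

set_option autoImplicit false
set_option linter.unusedSectionVars false

open scoped BigOperators Matrix
open MeasureTheory

namespace Pool.Agent.Run7.h47.V

open Pool.Agent.W788.MFP.Four Pool.Agent.W788.MFP.Form Pool.Agent.W788.BK

variable {d L : ℕ} [NeZero L]

theorem fc_split (u : T d L → ℂ) (k : T d L) :
    fc u k = ft (fun x => (u x).re) k + Complex.I * ft (fun x => (u x).im) k := by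
  unfold fc ft
  rw [Finset.mul_sum, ← Finset.sum_add_distrib]
  refine Finset.sum_congr rfl fun x _ => ?_
  conv_lhs => rw [← Complex.re_add_im (u x)]
  ring

theorem ft_neg (f : T d L → ℝ) (k : T d L) : ft f (-k) = (starRingEnd ℂ) (ft f k) := by
  unfold ft
  rw [map_sum]
  refine Finset.sum_congr rfl fun x _ => ?_
  rw [e_neg_left, map_mul, Complex.conj_ofReal]

/-- the two forms agree for even weights -/
theorem qc_wf (m : T d L → ℝ) (hm : ∀ k, m (-k) = m k) (u : T d L → ℂ) : qc m u = wf m u := by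
  set a : T d L → ℂ := ft fun x => (u x).re with ha
  set b : T d L → ℂ := ft fun x => (u x).im with hb
  have h1 : ∀ k, ‖fc u k‖ ^ 2 + ‖fc u (-k)‖ ^ 2 = 2 * (‖a k‖ ^ 2 + ‖b k‖ ^ 2) := by
    intro k
    have e1 : fc u k = a k + Complex.I * b k := fc_split u k
    have e2 : fc u (-k) = (starRingEnd ℂ) (a k - Complex.I * b k) := by
      rw [fc_split, ft_neg, ft_neg, map_sub, map_mul, Complex.conj_I]
      ring
    rw [e1, e2, RCLike.norm_conj]
    have h := parallelogram_law_with_norm ℂ (a k) (Complex.I * b k)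
    rw [norm_mul, Complex.norm_I, one_mul] at h
    nlinarith
  have h2 : ∑ k, m k * ‖fc u (-k)‖ ^ 2 = ∑ k, m k * ‖fc u k‖ ^ 2 := by
    rw [← Equiv.sum_comp (Equiv.neg _) (fun k => m k * ‖fc u k‖ ^ 2)]
    refine Finset.sum_congr rfl fun k _ => ?_
    rw [Equiv.neg_apply, hm]
  have h3 : ∑ k, m k * ‖fc u (-k)‖ ^ 2 = ∑ k, m k * (‖a k‖ ^ 2 + ‖b k‖ ^ 2) := by
    have h4 : 2 * ∑ k, m k * ‖fc u (-k)‖ ^ 2 = 2 * ∑ k, m k * (‖a k‖ ^ 2 + ‖b k‖ ^ 2) := by
      calc 2 * ∑ k, m k * ‖fc u (-k)‖ ^ 2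
          = ∑ k, m k * ‖fc u k‖ ^ 2 + ∑ k, m k * ‖fc u (-k)‖ ^ 2 := by rw [← h2]; ring
        _ = ∑ k, m k * (2 * (‖a k‖ ^ 2 + ‖b k‖ ^ 2)) := by
            rw [← Finset.sum_add_distrib]
            refine Finset.sum_congr rfl fun k _ => ?_
            rw [← h1]
            ring
        _ = _ := by
            rw [Finset.mul_sum]
            exact Finset.sum_congr rfl fun k _ => by ring
    linarith
  unfold wf qc q
  rw [h3, ← mul_add, ← Finset.sum_add_distrib]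
  congr 1
  exact Finset.sum_congr rfl fun k _ => by ring

theorem fc_add' (u v : T d L → ℂ) (k : T d L) : fc (fun x => u x + v x) k = fc u k + fc v k := by
  unfold fc
  rw [← Finset.sum_add_distrib]
  exact Finset.sum_congr rfl fun x _ => by ring

theorem fc_smul (c : ℂ) (u : T d L → ℂ) (k : T d L) : fc (fun x => c * u x) k = c * fc u k := by
  unfold fc
  rw [Finset.mul_sum]
  exact Finset.sum_congr rfl fun x _ => by ring

theorem wf_add2 (m : T d L → ℝ) (hm : ∀ k, 0 ≤ m k) (u v : T d L → ℂ) :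
    wf m (fun x => u x + v x) ≤ 2 * wf m u + 2 * wf m v := by
  unfold wf
  have h : ∑ k, m k * ‖fc (fun x => u x + v x) (-k)‖ ^ 2 ≤
      2 * ∑ k, m k * ‖fc u (-k)‖ ^ 2 + 2 * ∑ k, m k * ‖fc v (-k)‖ ^ 2 := by
    rw [Finset.mul_sum, Finset.mul_sum, ← Finset.sum_add_distrib]
    refine Finset.sum_le_sum fun k _ => ?_
    rw [fc_add']
    have h1 := norm_add_le (fc u (-k)) (fc v (-k))
    have h2 : ‖fc u (-k) + fc v (-k)‖ ^ 2 ≤ 2 * ‖fc u (-k)‖ ^ 2 + 2 * ‖fc v (-k)‖ ^ 2 := by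
      nlinarith [sq_nonneg (‖fc u (-k)‖ - ‖fc v (-k)‖), norm_nonneg (fc u (-k) + fc v (-k))]
    have := mul_le_mul_of_nonneg_left h2 (hm k)
    linarith
  have := mul_le_mul_of_nonneg_left h (inv_nonneg.2 (NN_pos (d := d) (L := L)).le)
  linarith

theorem nsq_add2 (u v : T d L → ℂ) : nsq (fun x => u x + v x) ≤ 2 * nsq u + 2 * nsq v := by
  rw [← wf_one, ← wf_one, ← wf_one]
  exact wf_add2 _ (fun _ => zero_le_one) u v

/-- duality of the forms -/
theorem wf_young (m : T d L → ℝ) (hm : ∀ k, 0 < m k) (a : ℝ) (ha : 0 < a) (u f : T d L → ℂ) :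
    ‖∑ x, (starRingEnd ℂ) (u x) * f x‖ ≤ a * wf m u + 1 / (4 * a) * wf (fun k => (m k)⁻¹) f := by
  have h1 : ∑ x, (starRingEnd ℂ) (u x) * f x = (NN d L : ℂ)⁻¹ *
      ∑ k, fc f k * (starRingEnd ℂ) (fc u k) := by
    rw [← parseval]
    exact Finset.sum_congr rfl fun x _ => mul_comm _ _
  have hN := NN_pos (d := d) (L := L)
  rw [h1, norm_mul, norm_inv, Complex.norm_real, Real.norm_of_nonneg hN.le]
  have h2 : ‖∑ k, fc f k * (starRingEnd ℂ) (fc u k)‖ ≤
      a * ∑ k, m k * ‖fc u (-k)‖ ^ 2 + 1 / (4 * a) * ∑ k, (m k)⁻¹ * ‖fc f (-k)‖ ^ 2 := by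
    rw [← Equiv.sum_comp (Equiv.neg _) (fun k => fc f k * (starRingEnd ℂ) (fc u k)),
      Finset.mul_sum, Finset.mul_sum, ← Finset.sum_add_distrib]
    refine (norm_sum_le _ _).trans (Finset.sum_le_sum fun k _ => ?_)
    rw [Equiv.neg_apply, norm_mul, RCLike.norm_conj]
    have hmk := hm k
    have e1 : a * (m k * ‖fc u (-k)‖ ^ 2) + 1 / (4 * a) * ((m k)⁻¹ * ‖fc f (-k)‖ ^ 2) -
        ‖fc f (-k)‖ * ‖fc u (-k)‖ =
        (2 * a * m k * ‖fc u (-k)‖ - ‖fc f (-k)‖) ^ 2 / (4 * a * m k) := by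
      field_simp
      ring
    have e2 : 0 ≤ (2 * a * m k * ‖fc u (-k)‖ - ‖fc f (-k)‖) ^ 2 / (4 * a * m k) := by positivity
    linarith
  have h3 := mul_le_mul_of_nonneg_left h2 (inv_nonneg.2 hN.le)
  unfold wf
  linarith

/-- the kinetic operator -/
theorem CV_adj (u : T d L → ℂ) : CV (fun k : T d L => (adj k : ℂ)) *ᵥ u =
    fun x => ∑ i, (u (x + Pi.single i 1) + u (x - Pi.single i 1)) := by
  apply fc_inj
  intro k
  rw [fc_CV, adj_neg]
  have hs : ∀ a : T d L, fc (fun x => u (x + a)) k = (starRingEnd ℂ) (e k a) * fc u k := by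
    intro a
    unfold fc
    rw [Finset.mul_sum, ← Equiv.sum_comp (Equiv.addRight a)
      (fun x => (starRingEnd ℂ) (e k a) * (u x * e k x))]
    refine Finset.sum_congr rfl fun x _ => ?_
    rw [Equiv.coe_addRight, e_add]
    have := e_normSq k a
    linear_combination (-(u (x + a)) * e k x) * this
  have h1 : fc (fun x => ∑ i, (u (x + Pi.single i 1) + u (x - Pi.single i 1))) k =
      ∑ i : Fin d, fc (fun x => u (x + Pi.single i 1) + u (x - Pi.single i 1)) k := by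
    unfold fc
    rw [Finset.sum_comm]
    refine Finset.sum_congr rfl fun x _ => ?_
    rw [Finset.sum_mul]
  have h2 : ∀ i : Fin d, fc (fun x => u (x + Pi.single i 1) + u (x - Pi.single i 1)) k =
      ((2 * (ZMod.stdAddChar (k i) : ℂ).re : ℝ) : ℂ) * fc u k := by
    intro i
    rw [fc_add', hs]
    simp only [sub_eq_add_neg]
    rw [hs (-Pi.single i 1), e_neg, e_single, Complex.conj_conj, ← add_mul]
    congr 1
    rw [add_comm, Complex.add_conj]
  rw [h1, Finset.sum_congr rfl fun i _ => h2 i]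
  unfold adj
  push_cast
  rw [Finset.sum_mul]

/-- the commutator of the kinetic operator and a function -/
noncomputable def com (a : T d L → ℝ) (u : T d L → ℂ) (x : T d L) : ℂ :=
  ∑ i, (((a (x + Pi.single i 1) - a x : ℝ) : ℂ) * u (x + Pi.single i 1) +
    ((a (x - Pi.single i 1) - a x : ℝ) : ℂ) * u (x - Pi.single i 1))

theorem com_eq (a : T d L → ℝ) (u : T d L → ℂ) (x : T d L) :
    (CV (fun k : T d L => (adj k : ℂ)) *ᵥ fun x => (a x : ℂ) * u x) x =
      (a x : ℂ) * (CV (fun k : T d L => (adj k : ℂ)) *ᵥ u) x + com a u x := by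
  rw [CV_adj, CV_adj]
  unfold com
  simp only
  rw [Finset.mul_sum, ← Finset.sum_add_distrib]
  refine Finset.sum_congr rfl fun i _ => ?_
  push_cast
  ring

theorem sum_sq_le {ι : Type} (s : Finset ι) (f : ι → ℂ) :
    ‖∑ i ∈ s, f i‖ ^ 2 ≤ s.card * ∑ i ∈ s, ‖f i‖ ^ 2 := by
  have h1 : ‖∑ i ∈ s, f i‖ ^ 2 ≤ (∑ i ∈ s, ‖f i‖) ^ 2 :=
    pow_le_pow_left₀ (norm_nonneg _) (norm_sum_le _ _) 2
  refine h1.trans ?_
  have h2 := Finset.sum_mul_sq_le_sq_mul_sq s (fun _ => (1 : ℝ)) (fun i => ‖f i‖)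
  simpa using h2

variable {n ℓ : ℕ} [NeZero n]

/-- the commutators with the cutoffs are small -/
theorem com_sum {cell : T d L → T d n} {χ : T d n → T d L → ℝ} {M : T d n → Finset (T d n)}
    (h : Tl d L n ℓ cell χ M) (u : T d L → ℂ) :
    ∑ j, nsq (com (χ j) u) ≤ 40 * d ^ 2 / (ℓ : ℝ) ^ 2 * nsq u := by
  have h1 : ∀ j x, ‖com (χ j) u x‖ ^ 2 ≤ 2 * d * ∑ i : Fin d,
      ((χ j (x + Pi.single i 1) - χ j x) ^ 2 * ‖u (x + Pi.single i 1)‖ ^ 2 +
        (χ j (x - Pi.single i 1) - χ j x) ^ 2 * ‖u (x - Pi.single i 1)‖ ^ 2) := by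
    intro j x
    unfold com
    refine (sum_sq_le _ _).trans ?_
    rw [Finset.card_univ, Fintype.card_fin, mul_comm (2 : ℝ) (d : ℝ), mul_assoc]
    refine mul_le_mul_of_nonneg_left ?_ (Nat.cast_nonneg d)
    rw [Finset.mul_sum]
    refine Finset.sum_le_sum fun i _ => ?_
    have h2 := norm_add_le (((χ j (x + Pi.single i 1) - χ j x : ℝ) : ℂ) * u (x + Pi.single i 1))
      (((χ j (x - Pi.single i 1) - χ j x : ℝ) : ℂ) * u (x - Pi.single i 1))
    rw [norm_mul, norm_mul, Complex.norm_real, Complex.norm_real, Real.norm_eq_abs,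
      Real.norm_eq_abs] at h2
    refine (pow_le_pow_left₀ (norm_nonneg _) h2 2).trans ?_
    rw [← sq_abs (χ j (x + Pi.single i 1) - χ j x), ← sq_abs (χ j (x - Pi.single i 1) - χ j x),
      ← mul_pow, ← mul_pow]
    nlinarith [sq_nonneg (|χ j (x + Pi.single i 1) - χ j x| * ‖u (x + Pi.single i 1)‖ -
      |χ j (x - Pi.single i 1) - χ j x| * ‖u (x - Pi.single i 1)‖)]
  have h2 : ∀ (i : Fin d) (x : T d L),
      ∑ j, (χ j (x - Pi.single i 1) - χ j x) ^ 2 ≤ 10 / (ℓ : ℝ) ^ 2 := by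
    intro i x
    have h3 := h.grad (x - Pi.single i 1) i
    rw [sub_add_cancel] at h3
    refine le_trans (le_of_eq ?_) h3
    exact Finset.sum_congr rfl fun j _ => by ring
  have h3 : ∑ j, nsq (com (χ j) u) ≤ ∑ x : T d L, 2 * (d : ℝ) * ∑ i : Fin d, (10 / (ℓ : ℝ) ^ 2 *
      ‖u (x + Pi.single i 1)‖ ^ 2 + 10 / (ℓ : ℝ) ^ 2 * ‖u (x - Pi.single i 1)‖ ^ 2) := by
    unfold nsq
    rw [Finset.sum_comm]
    refine Finset.sum_le_sum fun x _ => ?_
    refine (Finset.sum_le_sum fun j _ => h1 j x).trans ?_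
    rw [← Finset.mul_sum]
    refine mul_le_mul_of_nonneg_left ?_ (by positivity)
    rw [Finset.sum_comm]
    refine Finset.sum_le_sum fun i _ => ?_
    rw [Finset.sum_add_distrib, ← Finset.sum_mul, ← Finset.sum_mul]
    exact add_le_add (mul_le_mul_of_nonneg_right (h.grad x i) (by positivity))
      (mul_le_mul_of_nonneg_right (h2 i x) (by positivity))
  refine h3.trans (le_of_eq ?_)
  rw [← Finset.mul_sum]
  rw [Finset.sum_comm]
  have h4 : ∀ i : Fin d, ∑ x : T d L, (10 / (ℓ : ℝ) ^ 2 * ‖u (x + Pi.single i 1)‖ ^ 2 +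
      10 / (ℓ : ℝ) ^ 2 * ‖u (x - Pi.single i 1)‖ ^ 2) = 20 / (ℓ : ℝ) ^ 2 * nsq u := by
    intro i
    rw [Finset.sum_add_distrib, ← Finset.mul_sum, ← Finset.mul_sum]
    have e1 : ∑ x : T d L, ‖u (x + Pi.single i 1)‖ ^ 2 = nsq u :=
      Equiv.sum_comp (Equiv.addRight (Pi.single i 1 : T d L)) (fun x => ‖u x‖ ^ 2)
    have e2 : ∑ x : T d L, ‖u (x - Pi.single i 1)‖ ^ 2 = nsq u :=
      Equiv.sum_comp (Equiv.subRight (Pi.single i 1 : T d L)) (fun x => ‖u x‖ ^ 2)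
    rw [e1, e2]
    ring
  simp only [h4]
  rw [Finset.sum_const, Finset.card_univ, Fintype.card_fin, nsmul_eq_mul]
  ring

theorem nsq_chi {cell : T d L → T d n} {χ : T d n → T d L → ℝ} {M : T d n → Finset (T d n)}
    (h : Tl d L n ℓ cell χ M) (u : T d L → ℂ) :
    ∑ j, nsq (fun x => (χ j x : ℂ) * u x) = nsq u := by
  unfold nsq
  rw [Finset.sum_comm]
  refine Finset.sum_congr rfl fun x _ => ?_
  have h1 : ∀ j, ‖(χ j x : ℂ) * u x‖ ^ 2 = χ j x ^ 2 * ‖u x‖ ^ 2 := by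
    intro j
    rw [norm_mul, mul_pow, Complex.norm_real, Real.norm_eq_abs, sq_abs]
  simp only [h1]
  rw [← Finset.sum_mul, h.sq x, one_mul]

end Pool.Agent.Run7.h47.V
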