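import Pool.Agent.Run7.h47.V.Loc1

/-! Piece LOC, part 2: localization and the main estimate. -/

set_option autoImplicit false
set_option linter.unusedSectionVars false

open scoped BigOperators Matrix
open MeasureTheory

namespace Pool.Agent.Run7.h47.V

open Pool.Agent.W788.MFP.Four Pool.Agent.W788.MFP.Form Pool.Agent.W788.BK

variable {d L : ℕ} [NeZero L] {n ℓ : ℕ} [NeZero n]

theorem CV_const (c : ℂ) (u : T d L → ℂ) : CV (fun _ : T d L => c) *ᵥ u = fun x => c * u x := by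
  apply fc_inj
  intro k
  rw [fc_CV, fc_smul]

theorem CV_addv (Y Z u : T d L → ℂ) : CV (fun k => Y k + Z k) *ᵥ u =
    fun x => (CV Y *ᵥ u) x + (CV Z *ᵥ u) x := by
  rw [CV_add, Matrix.add_mulVec]
  rfl

/-- the symbol of the free operator minus an energy -/
theorem CV_A (ζ : ℂ) (u : T d L → ℂ) (x : T d L) :
    (CV (fun k : T d L => (adj k : ℂ) - ζ) *ᵥ u) x =
      (CV (fun k : T d L => (adj k : ℂ)) *ᵥ u) x - ζ * u x := by
  have h : (fun k : T d L => (adj k : ℂ) - ζ) = fun k => (adj k : ℂ) + -ζ := by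
    funext k
    ring
  rw [h, CV_addv, CV_const]
  simp only
  ring

theorem gI_im (E lam : ℝ) (a : ℝ) (hl : 0 < lam) :
    (((a : ℂ) - (E + lam * Complex.I))⁻¹).im = lam / ((a - E) ^ 2 + lam ^ 2) := by
  rw [Complex.inv_im, Complex.normSq_apply]
  simp
  ring

theorem gI_ne (E lam : ℝ) (a : ℝ) (hl : 0 < lam) : (a : ℂ) - (E + lam * Complex.I) ≠ 0 := by
  intro h
  have := congrArg Complex.im h
  simp at this
  linarith

theorem gI_norm (E lam : ℝ) (a : ℝ) (hl : 0 < lam) :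
    ‖((a : ℂ) - (E + lam * Complex.I))⁻¹‖ ^ 2 ≤ (lam ^ 2)⁻¹ := by
  rw [norm_inv, inv_pow, ← Complex.normSq_eq_norm_sq, Complex.normSq_apply]
  apply inv_anti₀ (by positivity)
  simp
  nlinarith [sq_nonneg (a - E)]

/-- the localization formula -/
theorem loc_h {cell : T d L → T d n} {χ : T d n → T d L → ℝ} {M : T d n → Finset (T d n)}
    (h : Tl d L n ℓ cell χ M) (hd : 1 ≤ d) (hℓ : 0 < ℓ) (E lam : ℝ) (hl : 0 < lam)
    (u : T d L → ℂ) :
    ∑ j, wf (fun k : T d L => lam ^ 2 / ((adj k - E) ^ 2 + lam ^ 2))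
        (fun x => (χ j x : ℂ) * u x) ≤
      wf (fun k : T d L => lam ^ 2 / ((adj k - E) ^ 2 + lam ^ 2)) u +
        7 * d / (lam * ℓ) * nsq u := by
  have hd0 : (0 : ℝ) < d := by exact_mod_cast hd
  have hℓ0 : (0 : ℝ) < ℓ := by exact_mod_cast hℓ
  set ζ : ℂ := E + lam * Complex.I with hζ
  set g : T d L → ℂ := fun k => ((adj k : ℂ) - ζ)⁻¹ with hg
  have hw : ∀ v : T d L → ℂ, wf (fun k : T d L => lam ^ 2 / ((adj k - E) ^ 2 + lam ^ 2)) v =
      lam * (∑ x, (starRingEnd ℂ) (v x) * (CV g *ᵥ v) x).im := by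
    intro v
    rw [form_CV_im, ← wf_const]
    congr 1
    funext k
    rw [hg]
    simp only
    rw [hζ, gI_im E lam (adj k) hl]
    ring
  have hinv1 : CV g * CV (fun k : T d L => (adj k : ℂ) - ζ) = 1 := by
    rw [CV_mul, ← CV_one]
    congr 1
    funext k
    exact inv_mul_cancel₀ (gI_ne E lam (adj k) hl)
  have hinv2 : CV (fun k : T d L => (adj k : ℂ) - ζ) * CV g = 1 := mul_eq_one_comm.1 hinv1
  set v : T d L → ℂ := CV g *ᵥ u with hv
  have hu : u = CV (fun k : T d L => (adj k : ℂ) - ζ) *ᵥ v := by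
    rw [hv, Matrix.mulVec_mulVec, hinv2, Matrix.one_mulVec]
  have hG : ∀ w : T d L → ℂ, nsq (CV g *ᵥ w) ≤ (lam ^ 2)⁻¹ * nsq w := by
    intro w
    rw [nsq_CV, ← wf_one, ← wf_const]
    refine wf_mono w fun k => ?_
    rw [mul_one]
    exact gI_norm E lam (adj k) hl
  -- the difference
  set D : T d n → T d L → ℂ := fun j x =>
    (CV g *ᵥ fun x => (χ j x : ℂ) * u x) x - (χ j x : ℂ) * v x with hD
  have hDj : ∀ j, D j = fun x => -((CV g *ᵥ com (χ j) v) x) := by
    intro j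
    have e1 : (fun x => (χ j x : ℂ) * u x) =
        (CV (fun k : T d L => (adj k : ℂ) - ζ) *ᵥ fun x => (χ j x : ℂ) * v x) - com (χ j) v := by
      funext x
      rw [Pi.sub_apply, CV_A, com_eq, hu]
      rw [CV_A]
      ring
    funext x
    rw [hD]
    simp only
    rw [e1, Matrix.mulVec_sub, Matrix.mulVec_mulVec, hinv1, Matrix.one_mulVec, Pi.sub_apply]
    ring
  have hDn : ∑ j, nsq (D j) ≤ 40 * d ^ 2 / ((ℓ : ℝ) ^ 2 * lam ^ 4) * nsq u := by
    have e1 : ∀ j, nsq (D j) ≤ (lam ^ 2)⁻¹ * nsq (com (χ j) v) := by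
      intro j
      rw [hDj]
      have e2 : nsq (fun x => -((CV g *ᵥ com (χ j) v) x)) = nsq (CV g *ᵥ com (χ j) v) := by
        unfold nsq
        simp only [norm_neg]
      rw [e2]
      exact hG _
    refine (Finset.sum_le_sum fun j _ => e1 j).trans ?_
    rw [← Finset.mul_sum]
    have e2 := com_sum h v
    have e3 := hG u
    calc (lam ^ 2)⁻¹ * ∑ j, nsq (com (χ j) v)
        ≤ (lam ^ 2)⁻¹ * (40 * d ^ 2 / (ℓ : ℝ) ^ 2 * ((lam ^ 2)⁻¹ * nsq u)) := by
          refine mul_le_mul_of_nonneg_left (e2.trans ?_) (by positivity)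
          exact mul_le_mul_of_nonneg_left e3 (by positivity)
      _ = _ := by
          field_simp
  -- the sum of the forms
  have hsum : ∑ j, ∑ x, (starRingEnd ℂ) ((χ j x : ℂ) * u x) *
      (CV g *ᵥ fun x => (χ j x : ℂ) * u x) x =
      ∑ x, (starRingEnd ℂ) (u x) * (CV g *ᵥ u) x +
        ∑ j, ∑ x, (starRingEnd ℂ) ((χ j x : ℂ) * u x) * D j x := by
    have e1 : ∑ x, (starRingEnd ℂ) (u x) * (CV g *ᵥ u) x =
        ∑ j, ∑ x, (starRingEnd ℂ) ((χ j x : ℂ) * u x) * ((χ j x : ℂ) * v x) := by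
      rw [Finset.sum_comm]
      refine Finset.sum_congr rfl fun x _ => ?_
      have e2 : ∀ j, (starRingEnd ℂ) ((χ j x : ℂ) * u x) * ((χ j x : ℂ) * v x) =
          ((χ j x ^ 2 : ℝ) : ℂ) * ((starRingEnd ℂ) (u x) * v x) := by
        intro j
        rw [map_mul, Complex.conj_ofReal]
        push_cast
        ring
      rw [Finset.sum_congr rfl fun j _ => e2 j, ← Finset.sum_mul, ← Complex.ofReal_sum, h.sq x,
        Complex.ofReal_one, one_mul]
    rw [e1, ← Finset.sum_add_distrib]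
    refine Finset.sum_congr rfl fun j _ => ?_
    rw [← Finset.sum_add_distrib]
    refine Finset.sum_congr rfl fun x _ => ?_
    rw [hD]
    ring
  have hn0 : 0 ≤ nsq u := nsq_nonneg u
  -- the error
  set a : ℝ := 7 * d / (lam ^ 2 * ℓ) with ha
  have ha0 : 0 < a := by positivity
  have herr : ‖∑ j, ∑ x, (starRingEnd ℂ) ((χ j x : ℂ) * u x) * D j x‖ ≤ a * nsq u := by
    refine (norm_sum_le _ _).trans ?_
    have e1 : ∀ j, ‖∑ x, (starRingEnd ℂ) ((χ j x : ℂ) * u x) * D j x‖ ≤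
        a / 2 * nsq (fun x => (χ j x : ℂ) * u x) + 1 / (2 * a) * nsq (D j) := fun j =>
      inner_young a ha0 (fun x => (χ j x : ℂ) * u x) (D j)
    refine (Finset.sum_le_sum fun j _ => e1 j).trans ?_
    rw [Finset.sum_add_distrib, ← Finset.mul_sum, ← Finset.mul_sum, nsq_chi h]
    have e2 : 1 / (2 * a) * ∑ j, nsq (D j) ≤
        1 / (2 * a) * (40 * d ^ 2 / ((ℓ : ℝ) ^ 2 * lam ^ 4) * nsq u) :=
      mul_le_mul_of_nonneg_left hDn (by positivity)
    have e3 : 1 / (2 * a) * (40 * d ^ 2 / ((ℓ : ℝ) ^ 2 * lam ^ 4) * nsq u) =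
        20 / 49 * a * nsq u := by
      rw [ha]
      field_simp
      ring
    have e4 : 0 ≤ a * nsq u := mul_nonneg ha0.le hn0
    nlinarith
  have e5 : ∑ j, wf (fun k : T d L => lam ^ 2 / ((adj k - E) ^ 2 + lam ^ 2))
      (fun x => (χ j x : ℂ) * u x) = lam * (∑ j, ∑ x, (starRingEnd ℂ) ((χ j x : ℂ) * u x) *
      (CV g *ᵥ fun x => (χ j x : ℂ) * u x) x).im := by
    rw [Complex.im_sum, Finset.mul_sum]
    exact Finset.sum_congr rfl fun j _ => hw _
  rw [e5, hw u, hsum, Complex.add_im, mul_add]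
  have e6 := (Complex.abs_im_le_norm (∑ j, ∑ x, (starRingEnd ℂ) ((χ j x : ℂ) * u x) * D j x))
  have e7 := (le_abs_self _).trans (e6.trans herr)
  have e8 := mul_le_mul_of_nonneg_left e7 hl.le
  have e9 : lam * (a * nsq u) = 7 * d / (lam * ℓ) * nsq u := by
    rw [ha]
    field_simp
  linarith

end Pool.Agent.Run7.h47.V
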