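import Pool.Agent.Run7.h47.V.Loc2

/-! Piece LOC, part 3: the main estimate. -/

set_option autoImplicit false
set_option linter.unusedSectionVars false

open scoped BigOperators Matrix
open MeasureTheory

namespace Pool.Agent.Run7.h47.V

open Pool.Agent.W788.MFP.Four Pool.Agent.W788.MFP.Form Pool.Agent.W788.BK

variable {d L : ℕ} [NeZero L] {n ℓ : ℕ} [NeZero n]

theorem X0_CV (E : ℝ) : (X0 E : Matrix (T d L) (T d L) ℂ) =
    CV fun k : T d L => ((adj k - E : ℝ) : ℂ) := by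
  ext x y
  unfold X0
  rw [Matrix.of_apply, K_eq_Kc _ fun k => by rw [adj_neg], CV_apply]

theorem HZ_apply (σ E τ : ℝ) (V : T d L → ℝ) (w : T d L → ℂ) (x : T d L) :
    (HZ σ E τ V *ᵥ w) x = (CV (fun k : T d L => (adj k : ℂ)) *ᵥ w) x -
      (E + τ * Complex.I) * w x + σ * V x * w x := by
  have h1 : (CV (fun k : T d L => ((adj k - E : ℝ) : ℂ)) *ᵥ w) x =
      (CV (fun k : T d L => (adj k : ℂ)) *ᵥ w) x - E * w x := by
    rw [← CV_A]
    congr 2
    funext k
    push_cast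
    rfl
  unfold HZ
  rw [Matrix.sub_mulVec, Matrix.add_mulVec, Pi.sub_apply, Pi.add_apply, Matrix.smul_mulVec,
    Matrix.one_mulVec, Matrix.mulVec_diagonal, X0_CV, h1, Pi.smul_apply, smul_eq_mul]
  ring

theorem Jinv_neg (E δ : ℝ) (k : T d L) : (J E δ (-k))⁻¹ = (J E δ k)⁻¹ := by rw [J_neg]

theorem wf_Jinv (E δ : ℝ) (hδ : 0 < δ) (g : T d L → ℂ) :
    wf (fun k => (J E δ k)⁻¹) g ≤ δ⁻¹ * nsq g := by
  rw [← qc_wf _ (Jinv_neg E δ)]
  exact qc_inv_le E δ hδ g

theorem AX_wf (χ : T d n → T d L → ℝ) (E δ : ℝ) (f : T d L → ℂ) :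
    AX χ E δ f = ∑ j, wf (fun k => (J E δ k)⁻¹) (fun x => (χ j x : ℂ) * f x) := by
  unfold AX
  exact Finset.sum_congr rfl fun j _ => qc_wf _ (Jinv_neg E δ) _

theorem BX_wf (χ : T d n → T d L → ℝ) (E δ : ℝ) (f : T d L → ℂ) :
    BX χ E δ f = ∑ j, wf (J E δ) (fun x => (χ j x : ℂ) * f x) := by
  unfold BX
  exact Finset.sum_congr rfl fun j _ => qc_wf _ (J_neg E δ) _

open Classical in
/-- the potential in the cells of a patch -/
noncomputable def Vj (cell : T d L → T d n) (Mj : Finset (T d n)) (V : T d L → ℝ) :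
    T d L → ℝ := fun x => if cell x ∈ Mj then V x else 0

theorem Vj_form (cell : T d L → T d n) (Mj : Finset (T d n)) (V : T d L → ℝ) (τ₀ E δ : ℝ)
    (hτ₀ : 0 ≤ τ₀) (hδ : 0 < δ) (hM : Mj.card ≤ 2 ^ d)
    (h : ∀ (c : T d n) (w : T d L → ℝ),
      |∑ x ∈ Finset.univ.filter (fun x => cell x = c), V x * w x ^ 2| ≤ τ₀ * q (J E δ) w)
    (w : T d L → ℝ) : |∑ x, Vj cell Mj V x * w x ^ 2| ≤ 2 ^ d * τ₀ * q (J E δ) w := by
  have h1 : ∑ x, Vj cell Mj V x * w x ^ 2 =
      ∑ c ∈ Mj, ∑ x ∈ Finset.univ.filter (fun x => cell x = c), V x * w x ^ 2 := by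
    have e1 : ∀ c, ∑ x ∈ Finset.univ.filter (fun x => cell x = c), V x * w x ^ 2 =
        ∑ x, if cell x = c then V x * w x ^ 2 else 0 := fun c => Finset.sum_filter _ _
    simp only [e1]
    rw [Finset.sum_comm]
    refine Finset.sum_congr rfl fun x _ => ?_
    rw [Finset.sum_ite_eq]
    unfold Vj
    split_ifs <;> simp
  have hq : 0 ≤ q (J E δ) w := q_nonneg _ _ fun k => (J_pos E δ hδ k).le
  rw [h1]
  refine (Finset.abs_sum_le_sum_abs _ _).trans ?_
  refine (Finset.sum_le_sum fun c _ => h c w).trans ?_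
  rw [Finset.sum_const, nsmul_eq_mul, mul_assoc]
  refine mul_le_mul_of_nonneg_right ?_ (mul_nonneg hτ₀ hq)
  exact_mod_cast hM

theorem alg_main {n A B P δ t e1 : ℝ} (hn : 0 ≤ n) (hA : 0 ≤ A) (hδ : 0 < δ) (ht : 0 < t)
    (htδ : t ≤ δ) (he1 : e1 ≤ 7 / 2000) (hB : B ≤ 5 * δ * n + 8 * A)
    (hP : P ≤ t / (20 * δ) * B + 1 / (4 * (t / (20 * δ))) * A)
    (hn1 : n ≤ P / t + e1 * n + B / (20 * δ)) :
    n ≤ 20 * δ / t ^ 2 * A ∧ B ≤ 100 * δ ^ 2 / t ^ 2 * A := by
  have h1 : P / t ≤ B / (20 * δ) + 5 * δ / t ^ 2 * A := by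
    rw [div_le_iff₀ ht]
    refine hP.trans (le_of_eq ?_)
    field_simp
    ring
  have h2 : e1 * n ≤ 7 / 2000 * n := mul_le_mul_of_nonneg_right he1 hn
  have h3 : B / (20 * δ) ≤ n / 4 + 2 / 5 * (A / δ) := by
    rw [div_le_iff₀ (by positivity)]
    have : (n / 4 + 2 / 5 * (A / δ)) * (20 * δ) = 5 * δ * n + 8 * A := by
      field_simp
      ring
    rw [this]
    exact hB
  have h4 : A / δ ≤ δ / t ^ 2 * A := by
    have h5 : 1 / δ ≤ δ / t ^ 2 := by
      rw [div_le_div_iff₀ hδ (by positivity)]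
      nlinarith
    calc A / δ = 1 / δ * A := by ring
      _ ≤ _ := mul_le_mul_of_nonneg_right h5 hA
  set Z : ℝ := δ / t ^ 2 * A with hZ
  have hZ0 : 0 ≤ Z := by positivity
  have e5 : 5 * δ / t ^ 2 * A = 5 * Z := by rw [hZ]; ring
  have h6 : n ≤ 12 * Z := by
    rw [e5] at h1
    linarith
  have h7 : A ≤ δ * Z := by
    have := mul_le_mul_of_nonneg_left h4 hδ.le
    have e6 : δ * (A / δ) = A := by field_simp
    linarith
  constructor
  · have : 20 * δ / t ^ 2 * A = 20 * Z := by rw [hZ]; ring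
    rw [this]
    linarith
  · have : 100 * δ ^ 2 / t ^ 2 * A = 100 * (δ * Z) := by rw [hZ]; ring
    rw [this]
    have h8 := mul_le_mul_of_nonneg_left h6 hδ.le
    have h9 : 0 ≤ δ * Z := by positivity
    nlinarith

theorem loc : S_LOC := by
  intro d L n ℓ _ _ cell χ M h hd E τ δ t σ τ₀ X V hδ ht htδ hτ₀ hσ hℓ hX hdis hform u f huf
  have hd0 : (0 : ℝ) < d := by exact_mod_cast hd
  have hℓpos : (0 : ℝ) < ℓ := by
    rcases Nat.eq_zero_or_pos ℓ with h0 | h0
    · rw [h0] at hℓ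
      simp at hℓ
      linarith
    · exact_mod_cast h0
  have hℓ1 : 0 < ℓ := by exact_mod_cast hℓpos
  have hdl : (d : ℝ) / ℓ ≤ δ / 200 := by
    rw [div_le_iff₀ hℓpos]
    linarith
  have hJp := J_pos (d := d) (L := L) E δ hδ
  set A : ℝ := AX χ E δ f with hA
  set B : ℝ := BX χ E δ u with hB
  set N : ℝ := nsq u with hN
  have hN0 : 0 ≤ N := nsq_nonneg u
  have hA0 : 0 ≤ A := by
    rw [hA, AX_wf]
    exact Finset.sum_nonneg fun j _ => wf_nonneg _ fun k => (inv_pos.2 (hJp k)).le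
  -- the symbol
  set Y : T d L → ℂ := fun k => X k - ((adj k : ℂ) - E - τ * Complex.I) with hY
  have hXY : ∀ x, (CV X *ᵥ u) x = (CV (fun k : T d L => (adj k : ℂ)) *ᵥ u) x -
      (E + τ * Complex.I) * u x + (CV Y *ᵥ u) x := by
    intro x
    have e1 : X = fun k => ((adj k : ℂ) - (E + τ * Complex.I)) + Y k := by
      funext k
      rw [hY]
      ring
    rw [e1, CV_addv]
    simp only
    rw [CV_A]
  have hf : ∀ x, f x = (CV X *ᵥ u) x + σ * V x * u x := fun x => by rw [← huf, HX_mulVec]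
  -- one patch
  set b : T d n → T d L → ℂ := fun j x =>
    -((χ j x : ℂ) * (CV Y *ᵥ u) x) + com (χ j) u x with hb
  have hg : ∀ j, HZ σ E τ (Vj cell (M j) V) *ᵥ (fun x => (χ j x : ℂ) * u x) =
      fun x => (χ j x : ℂ) * f x + b j x := by
    intro j
    funext x
    have e1 : (Vj cell (M j) V x : ℂ) * (χ j x : ℂ) = V x * χ j x := by
      by_cases hx : χ j x = 0
      · rw [hx]
        simp
      · have := h.supp j x hx
        unfold Vj
        rw [if_pos this]
    rw [HZ_apply, com_eq, hf, hXY, hb]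
    simp only
    linear_combination (σ * u x) * e1
  have hnY : nsq (CV Y *ᵥ u) ≤ (δ / 20) ^ 2 * N := by
    rw [nsq_CV, hN, ← wf_one, ← wf_const]
    refine wf_mono u fun k => ?_
    rw [mul_one]
    exact pow_le_pow_left₀ (norm_nonneg _) (hX k) 2
  have hnb : ∑ j, nsq (b j) ≤ 7 / 1000 * δ ^ 2 * N := by
    have e1 : ∀ j, nsq (b j) ≤ 2 * nsq (fun x => (χ j x : ℂ) * (CV Y *ᵥ u) x) +
        2 * nsq (com (χ j) u) := by
      intro j
      have e2 := nsq_add2 (fun x => -((χ j x : ℂ) * (CV Y *ᵥ u) x)) (com (χ j) u)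
      have e3 : nsq (fun x => -((χ j x : ℂ) * (CV Y *ᵥ u) x)) =
          nsq (fun x => (χ j x : ℂ) * (CV Y *ᵥ u) x) := by
        unfold nsq
        simp only [norm_neg]
      rw [e3] at e2
      exact e2
    refine (Finset.sum_le_sum fun j _ => e1 j).trans ?_
    rw [Finset.sum_add_distrib, ← Finset.mul_sum, ← Finset.mul_sum, nsq_chi h]
    have e2 := com_sum h u
    have e3 : 40 * (d : ℝ) ^ 2 / (ℓ : ℝ) ^ 2 ≤ 40 * (δ / 200) ^ 2 := by
      have := pow_le_pow_left₀ (by positivity) hdl 2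
      rw [div_pow] at this
      rw [mul_div_assoc]
      linarith
    have e4 := mul_le_mul_of_nonneg_right e3 hN0
    nlinarith
  -- the form of J
  have hBb : B ≤ 5 * δ * N + 8 * A := by
    have e1 : ∀ j, qc (J E δ) (fun x => (χ j x : ℂ) * u x) ≤
        4 * δ * nsq (fun x => (χ j x : ℂ) * u x) +
        4 * (2 * wf (fun k => (J E δ k)⁻¹) (fun x => (χ j x : ℂ) * f x) +
          2 * (δ⁻¹ * nsq (b j))) := by
      intro j
      have e2 := off σ E τ δ (2 ^ d * τ₀) hδ (by positivity) hσ (Vj cell (M j) V)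
        (Vj_form cell (M j) V τ₀ E δ hτ₀ hδ (h.card_M j) hform)
        (fun x => (χ j x : ℂ) * u x) _ (hg j)
      refine e2.trans ?_
      have e3 : qc (fun k => (J E δ k)⁻¹) (fun x => (χ j x : ℂ) * f x + b j x) ≤
          2 * wf (fun k => (J E δ k)⁻¹) (fun x => (χ j x : ℂ) * f x) +
          2 * (δ⁻¹ * nsq (b j)) := by
        rw [qc_wf _ (Jinv_neg E δ)]
        refine (wf_add2 _ (fun k => (inv_pos.2 (hJp k)).le) _ _).trans ?_
        have := wf_Jinv (d := d) (L := L) E δ hδ (b j)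
        linarith
      linarith
    have e4 : B ≤ 4 * δ * N + 4 * (2 * A + 2 * (δ⁻¹ * ∑ j, nsq (b j))) := by
      rw [hB]
      unfold BX
      refine (Finset.sum_le_sum fun j _ => e1 j).trans (le_of_eq ?_)
      rw [Finset.sum_add_distrib, ← Finset.mul_sum, ← Finset.mul_sum, nsq_chi h,
        Finset.sum_add_distrib, ← Finset.mul_sum, ← Finset.mul_sum, ← Finset.mul_sum, hA, AX_wf]
    have e5 : δ⁻¹ * ∑ j, nsq (b j) ≤ 7 / 1000 * δ * N := by
      calc δ⁻¹ * ∑ j, nsq (b j) ≤ δ⁻¹ * (7 / 1000 * δ ^ 2 * N) :=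
            mul_le_mul_of_nonneg_left hnb (by positivity)
        _ = _ := by field_simp
    have : 0 ≤ δ * N := by positivity
    nlinarith
  -- the form of f
  set P : ℝ := ‖∑ x, (starRingEnd ℂ) (u x) * f x‖ with hP
  have hP1 : P ≤ t / (20 * δ) * B + 1 / (4 * (t / (20 * δ))) * A := by
    have e1 : ∑ x, (starRingEnd ℂ) (u x) * f x =
        ∑ j, ∑ x, (starRingEnd ℂ) ((χ j x : ℂ) * u x) * ((χ j x : ℂ) * f x) := by
      rw [Finset.sum_comm]
      refine Finset.sum_congr rfl fun x _ => ?_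
      have e2 : ∀ j, (starRingEnd ℂ) ((χ j x : ℂ) * u x) * ((χ j x : ℂ) * f x) =
          ((χ j x ^ 2 : ℝ) : ℂ) * ((starRingEnd ℂ) (u x) * f x) := by
        intro j
        rw [map_mul, Complex.conj_ofReal]
        push_cast
        ring
      rw [Finset.sum_congr rfl fun j _ => e2 j, ← Finset.sum_mul, ← Complex.ofReal_sum, h.sq x,
        Complex.ofReal_one, one_mul]
    rw [hP, e1]
    refine (norm_sum_le _ _).trans ?_
    refine (Finset.sum_le_sum fun j _ => wf_young (J E δ) hJp (t / (20 * δ)) (by positivity)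
      (fun x => (χ j x : ℂ) * u x) (fun x => (χ j x : ℂ) * f x)).trans (le_of_eq ?_)
    rw [Finset.sum_add_distrib, ← Finset.mul_sum, ← Finset.mul_sum, hA, AX_wf, hB, BX_wf]
  -- dissipation
  set w1 : T d L → ℝ := fun k => (10 * δ) ^ 2 / ((adj k - E) ^ 2 + (10 * δ) ^ 2) with hw1
  have hdiss : wf w1 u ≤ P / t := by
    have e1 := form_im X σ V u
    rw [huf] at e1
    have e2 : t * wf w1 u ≤ -wf (fun k => (X k).im) u := by
      have e3 : -wf (fun k => (X k).im) u = wf (fun k => -1 * (X k).im) u := by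
        rw [wf_const]
        ring
      rw [e3, ← wf_const]
      refine wf_mono u fun k => ?_
      have := hdis k
      rw [hw1]
      simp only
      have e4 : (10 * δ) ^ 2 = 100 * δ ^ 2 := by ring
      rw [e4]
      linarith
    rw [le_div_iff₀ ht]
    have e3 := Complex.abs_im_le_norm (∑ x, (starRingEnd ℂ) (u x) * f x)
    have e4 := neg_le_abs (∑ x, (starRingEnd ℂ) (u x) * f x).im
    rw [hP]
    linarith
  have hw10 : ∀ k, 0 ≤ w1 k ∧ w1 k ≤ 1 ∧ 1 - w1 k ≤ 1 / (20 * δ) * J E δ k := by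
    intro k
    have e0 : 0 < (adj k - E) ^ 2 + (10 * δ) ^ 2 := by positivity
    refine ⟨by positivity, ?_, ?_⟩
    · rw [hw1]
      simp only
      rw [div_le_one e0]
      nlinarith [sq_nonneg (adj k - E)]
    · have e1 := J_ge' (d := d) (L := L) E δ k
      have e2 : 1 - w1 k = (adj k - E) ^ 2 / ((adj k - E) ^ 2 + (10 * δ) ^ 2) := by
        rw [hw1]
        field_simp
        ring
      rw [e2, div_le_iff₀ e0]
      have e3 : (adj k - E) ^ 2 = |adj k - E| ^ 2 := (sq_abs _).symm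
      rw [e3]
      have e4 : 0 ≤ |adj k - E| := abs_nonneg _
      have e5 : |adj k - E| ^ 2 ≤ 1 / (20 * δ) * |adj k - E| * (|adj k - E| ^ 2 + (10 * δ) ^ 2) := by
        have e6 : 1 / (20 * δ) * |adj k - E| * (|adj k - E| ^ 2 + (10 * δ) ^ 2) -
            |adj k - E| ^ 2 = |adj k - E| * (|adj k - E| - 10 * δ) ^ 2 / (20 * δ) := by
          field_simp
          ring
        have e7 : 0 ≤ |adj k - E| * (|adj k - E| - 10 * δ) ^ 2 / (20 * δ) := by positivity
        linarith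
      refine e5.trans ?_
      refine mul_le_mul_of_nonneg_right ?_ (by positivity)
      exact mul_le_mul_of_nonneg_left e1 (by positivity)
  have hn1 : N ≤ P / t + 7 * d / (10 * δ * ℓ) * N + B / (20 * δ) := by
    have e1 := loc_h h hd hℓ1 E (10 * δ) (by positivity) u
    have e2 : N = ∑ j, wf w1 (fun x => (χ j x : ℂ) * u x) +
        ∑ j, wf (fun k => 1 - w1 k) (fun x => (χ j x : ℂ) * u x) := by
      rw [hN, ← nsq_chi h u, ← Finset.sum_add_distrib]
      refine Finset.sum_congr rfl fun j _ => ?_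
      rw [← wf_one, ← wf_add]
      congr 1
      funext k
      ring
    have e3 : ∑ j, wf (fun k => 1 - w1 k) (fun x => (χ j x : ℂ) * u x) ≤ B / (20 * δ) := by
      rw [hB, BX_wf, Finset.sum_div]
      refine Finset.sum_le_sum fun j _ => ?_
      calc wf (fun k => 1 - w1 k) (fun x => (χ j x : ℂ) * u x)
          ≤ wf (fun k => 1 / (20 * δ) * J E δ k) (fun x => (χ j x : ℂ) * u x) :=
            wf_mono _ fun k => (hw10 k).2.2
        _ = _ := by
            rw [wf_const]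
            ring
    linarith
  exact alg_main hN0 hA0 hδ ht htδ (by
    have : 7 * (d : ℝ) / (10 * δ * ℓ) = 7 / (10 * δ) * (d / ℓ) := by
      field_simp
    rw [this]
    calc 7 / (10 * δ) * (d / ℓ) ≤ 7 / (10 * δ) * (δ / 200) :=
          mul_le_mul_of_nonneg_left hdl (by positivity)
      _ = 7 / 2000 := by field_simp; norm_num) hBb hP1 hn1

end Pool.Agent.Run7.h47.V
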