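import Pool.Agent.Run7.h47.V.Def
import Pool.Agent.Run7.h47.Bil

/-! Resolvents of dissipative translation invariant operators plus a potential on the torus. -/

set_option autoImplicit false
set_option linter.unusedSectionVars false

open scoped BigOperators Matrix
open MeasureTheory

namespace Pool.Agent.Run7.h47.V

open Pool.Agent.W788.MFP.Four Pool.Agent.W788.MFP.Form Pool.Agent.W788.BK
open Pool.Agent.W788.MFP.Gm (Γ)

variable {d L : ℕ} [NeZero L]

theorem CV_apply (Y : T d L → ℂ) (x y : T d L) : CV Y x y = Kc Y (x - y) := rfl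

theorem CV_mul (Y Z : T d L → ℂ) : CV Y * CV Z = CV fun k => Y k * Z k := by
  ext x y
  rw [Matrix.mul_apply]
  exact Kc_conv Y Z x y

theorem Kc_one (x : T d L) : Kc (fun _ => 1) x = if x = 0 then 1 else 0 := by
  unfold Kc
  simp only [one_mul]
  rw [sum_e]
  split_ifs
  · exact inv_mul_cancel₀ NNc_ne
  · exact mul_zero _

theorem CV_one : CV (fun _ : T d L => 1) = 1 := by
  ext x y
  rw [CV_apply, Kc_one, Matrix.one_apply]
  congr 1
  exact propext sub_eq_zero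

theorem CV_add (Y Z : T d L → ℂ) : CV (fun k => Y k + Z k) = CV Y + CV Z := by
  ext x y
  rw [Matrix.add_apply]
  unfold CV
  rw [← mul_add, ← Finset.sum_add_distrib]
  congr 1
  exact Finset.sum_congr rfl fun k _ => by ring

theorem CV_smul (a : ℂ) (Y : T d L → ℂ) : CV (fun k => a * Y k) = a • CV Y := by
  ext x y
  rw [Matrix.smul_apply, smul_eq_mul]
  unfold CV
  rw [Finset.mul_sum, Finset.mul_sum, Finset.mul_sum]
  exact Finset.sum_congr rfl fun k _ => by ring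

/-- action on characters -/
theorem CV_e (Y : T d L → ℂ) (k x : T d L) : ∑ y, CV Y x y * e k y = Y k * e k x := by
  have h1 : ∀ y, CV Y x y * e k y = e k x * (Kc Y (x - y) * e (-k) (x - y)) := by
    intro y
    have : e k y = e k x * e (-k) (x - y) := by
      rw [e_neg_left, ← e_neg, ← e_add]
      congr 1
      abel
    rw [CV_apply, this]
    ring
  simp only [h1]
  have h3 : ∑ y, Kc Y (x - y) * e (-k) (x - y) = ∑ y, Kc Y y * e (-k) y :=
    Equiv.sum_comp (Equiv.subLeft x) (fun y => Kc Y y * e (-k) y)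
  have h2 : ∑ y, Kc Y y * e (-k) y = fc (Kc Y) (-k) := rfl
  rw [← Finset.mul_sum, h3, h2, fc_Kc, neg_neg, mul_comm]

theorem CV_transpose (Y : T d L → ℂ) : (CV Y)ᵀ = CV fun k => Y (-k) := by
  ext x y
  rw [Matrix.transpose_apply]
  unfold CV
  congr 1
  rw [← Equiv.sum_comp (Equiv.neg _) (fun k => Y k * e k (y - x))]
  refine Finset.sum_congr rfl fun k _ => ?_
  rw [Equiv.neg_apply, e_neg_left, ← e_neg, neg_sub]

theorem fc_CV (Y u : T d L → ℂ) (k : T d L) : fc (CV Y *ᵥ u) k = Y (-k) * fc u k := by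
  have h := fc_conv (Kc Y) u k
  rw [fc_Kc] at h
  exact h

/-- the weighted form -/
noncomputable def wf (m : T d L → ℝ) (u : T d L → ℂ) : ℝ :=
  (NN d L)⁻¹ * ∑ k, m k * ‖fc u (-k)‖ ^ 2

theorem wf_mono {m n : T d L → ℝ} (u : T d L → ℂ) (h : ∀ k, m k ≤ n k) : wf m u ≤ wf n u := by
  unfold wf
  apply mul_le_mul_of_nonneg_left _ (inv_nonneg.2 NN_pos.le)
  exact Finset.sum_le_sum fun k _ => mul_le_mul_of_nonneg_right (h k) (by positivity)

theorem wf_nonneg {m : T d L → ℝ} (u : T d L → ℂ) (h : ∀ k, 0 ≤ m k) : 0 ≤ wf m u := by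
  unfold wf
  apply mul_nonneg (inv_nonneg.2 NN_pos.le)
  exact Finset.sum_nonneg fun k _ => mul_nonneg (h k) (by positivity)

theorem wf_const (c : ℝ) (m : T d L → ℝ) (u : T d L → ℂ) :
    wf (fun k => c * m k) u = c * wf m u := by
  unfold wf
  simp only [Finset.mul_sum]
  exact Finset.sum_congr rfl fun k _ => by ring

theorem wf_add (m n : T d L → ℝ) (u : T d L → ℂ) :
    wf (fun k => m k + n k) u = wf m u + wf n u := by
  unfold wf
  rw [← mul_add, ← Finset.sum_add_distrib]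
  congr 1
  exact Finset.sum_congr rfl fun k _ => by ring

theorem wf_one (u : T d L → ℂ) : wf (fun _ => 1) u = nsq u := by
  unfold wf nsq
  rw [parseval_sq]
  congr 1
  simp only [one_mul]
  exact Equiv.sum_comp (Equiv.neg _) (fun k => ‖fc u k‖ ^ 2)

theorem wf_CV (m : T d L → ℝ) (Y u : T d L → ℂ) :
    wf m (CV Y *ᵥ u) = wf (fun k => m k * ‖Y k‖ ^ 2) u := by
  unfold wf
  congr 1
  refine Finset.sum_congr rfl fun k _ => ?_
  rw [fc_CV, neg_neg, norm_mul, mul_pow, mul_assoc]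

theorem nsq_CV (Y u : T d L → ℂ) : nsq (CV Y *ᵥ u) = wf (fun k => ‖Y k‖ ^ 2) u := by
  rw [← wf_one, wf_CV]
  simp only [one_mul]

/-- the form of the operator -/
theorem form_CV (Y u : T d L → ℂ) :
    ∑ x, (starRingEnd ℂ) (u x) * (CV Y *ᵥ u) x =
      (NN d L : ℂ)⁻¹ * ∑ k, Y k * ((‖fc u (-k)‖ ^ 2 : ℝ) : ℂ) := by
  have h := parseval (CV Y *ᵥ u) u
  have h1 : ∀ x, (CV Y *ᵥ u) x * (starRingEnd ℂ) (u x) =
      (starRingEnd ℂ) (u x) * (CV Y *ᵥ u) x := fun x => mul_comm _ _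
  simp only [h1] at h
  rw [h]
  congr 1
  rw [← Equiv.sum_comp (Equiv.neg _)]
  refine Finset.sum_congr rfl fun k _ => ?_
  rw [Equiv.neg_apply, fc_CV, neg_neg, mul_assoc, Complex.mul_conj, Complex.normSq_eq_norm_sq]

theorem form_CV_im (Y u : T d L → ℂ) :
    (∑ x, (starRingEnd ℂ) (u x) * (CV Y *ᵥ u) x).im = wf (fun k => (Y k).im) u := by
  rw [form_CV]
  unfold wf
  rw [← Complex.ofReal_inv, Complex.im_ofReal_mul, Complex.im_sum]
  congr 1
  refine Finset.sum_congr rfl fun k _ => ?_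
  rw [Complex.mul_im, Complex.ofReal_im, Complex.ofReal_re, mul_zero, zero_add]

/-- the operator `Y + σ V` -/
noncomputable def HX (Y : T d L → ℂ) (σ : ℝ) (V : T d L → ℝ) : Matrix (T d L) (T d L) ℂ :=
  CV Y + Matrix.diagonal fun x => (σ : ℂ) * V x

/-- its resolvent -/
noncomputable def RX (Y : T d L → ℂ) (σ : ℝ) (V : T d L → ℝ) : Matrix (T d L) (T d L) ℂ :=
  (HX Y σ V)⁻¹

theorem RX_eq_RT (Y : T d L → ℂ) (σ : ℝ) (V : T d L → ℝ) :
    RX Y σ V = RT Y fun x => σ * V x := by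
  unfold RX RT HX
  congr 3
  funext x
  push_cast
  rfl

theorem HX_mulVec (Y : T d L → ℂ) (σ : ℝ) (V : T d L → ℝ) (u : T d L → ℂ) (x : T d L) :
    (HX Y σ V *ᵥ u) x = (CV Y *ᵥ u) x + σ * V x * u x := by
  unfold HX
  rw [Matrix.add_mulVec, Pi.add_apply, Matrix.mulVec_diagonal]

/-- the imaginary part of the form -/
theorem form_im (Y : T d L → ℂ) (σ : ℝ) (V : T d L → ℝ) (u : T d L → ℂ) :
    (∑ x, (starRingEnd ℂ) (u x) * (HX Y σ V *ᵥ u) x).im = wf (fun k => (Y k).im) u := by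
  rw [← form_CV_im]
  simp only [HX_mulVec, mul_add]
  rw [Finset.sum_add_distrib, Complex.add_im]
  have h : (∑ x, (starRingEnd ℂ) (u x) * (σ * V x * u x)).im = 0 := by
    rw [Complex.im_sum]
    refine Finset.sum_eq_zero fun x _ => ?_
    have : (starRingEnd ℂ) (u x) * (σ * V x * u x) = ((σ * V x * ‖u x‖ ^ 2 : ℝ) : ℂ) := by
      have h1 : (starRingEnd ℂ) (u x) * (σ * V x * u x) = σ * V x * (u x * (starRingEnd ℂ) (u x)) := by
        ring
      rw [h1, Complex.mul_conj, Complex.normSq_eq_norm_sq]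
      push_cast
      ring
    rw [this, Complex.ofReal_im]
  rw [h, add_zero]

/-- dissipation -/
def Dis (c : ℝ) (Y : T d L → ℂ) : Prop := ∀ k, (Y k).im ≤ -c

theorem Dis.neg {c : ℝ} {Y : T d L → ℂ} (h : Dis c Y) : Dis c fun k => Y (-k) := fun k => h (-k)

theorem inner_young (a : ℝ) (ha : 0 < a) (u g : T d L → ℂ) :
    ‖∑ x, (starRingEnd ℂ) (u x) * g x‖ ≤ a / 2 * nsq u + 1 / (2 * a) * nsq g := by
  refine (norm_sum_le _ _).trans ?_
  unfold nsq
  rw [Finset.mul_sum, Finset.mul_sum, ← Finset.sum_add_distrib]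
  refine Finset.sum_le_sum fun x _ => ?_
  rw [norm_mul, RCLike.norm_conj]
  have h : a / 2 * ‖u x‖ ^ 2 + 1 / (2 * a) * ‖g x‖ ^ 2 - ‖u x‖ * ‖g x‖ =
      (a * ‖u x‖ - ‖g x‖) ^ 2 / (2 * a) := by
    field_simp
    ring
  have h1 : 0 ≤ (a * ‖u x‖ - ‖g x‖) ^ 2 / (2 * a) := by positivity
  linarith

theorem HX_lower {c : ℝ} (hc : 0 < c) {Y : T d L → ℂ} (h : Dis c Y) (σ : ℝ) (V : T d L → ℝ)
    (u : T d L → ℂ) : nsq u ≤ (c ^ 2)⁻¹ * nsq (HX Y σ V *ᵥ u) := by
  have h1 := form_im Y σ V u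
  have h2 : wf (fun k => (Y k).im) u ≤ -c * nsq u := by
    rw [← wf_one, ← wf_const]
    exact wf_mono u fun k => by
      rw [mul_one]
      exact h k
  have h3 := inner_young c hc u (HX Y σ V *ᵥ u)
  have h4 := (abs_le.1 (Complex.abs_im_le_norm (∑ x, (starRingEnd ℂ) (u x) *
    (HX Y σ V *ᵥ u) x))).1
  rw [h1] at h4
  have h5 : c / 2 * nsq u ≤ 1 / (2 * c) * nsq (HX Y σ V *ᵥ u) := by linarith
  have h6 := mul_le_mul_of_nonneg_left h5 (by positivity : 0 ≤ 2 / c)
  have e1 : 2 / c * (c / 2 * nsq u) = nsq u := by field_simp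
  have e2 : 2 / c * (1 / (2 * c) * nsq (HX Y σ V *ᵥ u)) =
      (c ^ 2)⁻¹ * nsq (HX Y σ V *ᵥ u) := by
    field_simp
  rw [e1, e2] at h6
  exact h6

theorem nsq_eq_zero {u : T d L → ℂ} (h : nsq u ≤ 0) : u = 0 := by
  funext x
  have h1 : ‖u x‖ ^ 2 ≤ nsq u :=
    Finset.single_le_sum (f := fun x => ‖u x‖ ^ 2) (fun _ _ => by positivity) (Finset.mem_univ x)
  have h2 : ‖u x‖ ^ 2 = 0 := le_antisymm (h1.trans h) (by positivity)
  simpa using h2

theorem HX_unit {c : ℝ} (hc : 0 < c) {Y : T d L → ℂ} (h : Dis c Y) (σ : ℝ) (V : T d L → ℝ) :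
    IsUnit (HX Y σ V) := by
  rw [← Matrix.mulVec_injective_iff_isUnit]
  intro u w huw
  have h1 : HX Y σ V *ᵥ (u - w) = 0 := by
    rw [Matrix.mulVec_sub]
    exact sub_eq_zero.2 huw
  have h2 := HX_lower hc h σ V (u - w)
  rw [h1] at h2
  have h3 : nsq (0 : T d L → ℂ) = 0 := by
    unfold nsq
    simp
  rw [h3, mul_zero] at h2
  exact sub_eq_zero.1 (nsq_eq_zero h2)

theorem HX_mul {c : ℝ} (hc : 0 < c) {Y : T d L → ℂ} (h : Dis c Y) (σ : ℝ) (V : T d L → ℝ) :
    HX Y σ V * RX Y σ V = 1 :=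
  Matrix.mul_nonsing_inv _ ((Matrix.isUnit_iff_isUnit_det _).1 (HX_unit hc h σ V))

theorem mul_HX {c : ℝ} (hc : 0 < c) {Y : T d L → ℂ} (h : Dis c Y) (σ : ℝ) (V : T d L → ℝ) :
    RX Y σ V * HX Y σ V = 1 :=
  Matrix.nonsing_inv_mul _ ((Matrix.isUnit_iff_isUnit_det _).1 (HX_unit hc h σ V))

theorem HX_RX {c : ℝ} (hc : 0 < c) {Y : T d L → ℂ} (h : Dis c Y) (σ : ℝ) (V : T d L → ℝ)
    (f : T d L → ℂ) : HX Y σ V *ᵥ (RX Y σ V *ᵥ f) = f := by
  rw [Matrix.mulVec_mulVec, HX_mul hc h, Matrix.one_mulVec]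

theorem RX_nsq {c : ℝ} (hc : 0 < c) {Y : T d L → ℂ} (h : Dis c Y) (σ : ℝ) (V : T d L → ℝ)
    (f : T d L → ℂ) : nsq (RX Y σ V *ᵥ f) ≤ (c ^ 2)⁻¹ * nsq f := by
  have h1 := HX_lower hc h σ V (RX Y σ V *ᵥ f)
  rw [HX_RX hc h] at h1
  exact h1

theorem nsq_single (y : T d L) : nsq (Pi.single y 1 : T d L → ℂ) = 1 := by
  unfold nsq
  rw [Finset.sum_eq_single y]
  · simp
  · intro c _ hc
    simp [hc]
  · intro h
    exact absurd (Finset.mem_univ _) h

theorem RX_col {c : ℝ} (hc : 0 < c) {Y : T d L → ℂ} (h : Dis c Y) (σ : ℝ) (V : T d L → ℝ)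
    (y : T d L) : ∑ x, ‖RX Y σ V x y‖ ^ 2 ≤ (c ^ 2)⁻¹ := by
  have h1 := RX_nsq hc h σ V (Pi.single y 1)
  rw [nsq_single, mul_one, Matrix.mulVec_single_one] at h1
  exact h1

theorem RX_bd {c : ℝ} (hc : 0 < c) {Y : T d L → ℂ} (h : Dis c Y) (σ : ℝ) (V : T d L → ℝ)
    (x y : T d L) : ‖RX Y σ V x y‖ ≤ c⁻¹ := by
  have h1 : ‖RX Y σ V x y‖ ^ 2 ≤ (c⁻¹) ^ 2 := by
    rw [inv_pow]
    exact (Finset.single_le_sum (f := fun x => ‖RX Y σ V x y‖ ^ 2) (fun _ _ => by positivity)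
      (Finset.mem_univ x)).trans (RX_col hc h σ V y)
  exact (sq_le_sq₀ (norm_nonneg _) (by positivity)).1 h1

theorem RX_transpose (Y : T d L → ℂ) (σ : ℝ) (V : T d L → ℝ) :
    (RX Y σ V)ᵀ = RX (fun k => Y (-k)) σ V := by
  unfold RX HX
  rw [Matrix.transpose_nonsing_inv, Matrix.transpose_add, CV_transpose, Matrix.diagonal_transpose]

theorem RX_swap (Y : T d L → ℂ) (σ : ℝ) (V : T d L → ℝ) (x y : T d L) :
    RX Y σ V x y = RX (fun k => Y (-k)) σ V y x := by
  rw [← RX_transpose]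
  rfl

/-- covariance -/
theorem RX_shift (Y : T d L → ℂ) (σ : ℝ) (V : T d L → ℝ) (a x y : T d L) :
    RX Y σ (fun z => V (z + a)) x y = RX Y σ V (x + a) (y + a) := by
  have h : HX Y σ (fun z => V (z + a)) =
      (HX Y σ V).submatrix (Equiv.addRight a) (Equiv.addRight a) := by
    ext x y
    unfold HX
    simp only [Matrix.submatrix_apply, Equiv.coe_addRight, Matrix.add_apply, CV_apply]
    rw [add_sub_add_right_eq_sub]
    congr 1
    by_cases hxy : x = y
    · subst hxy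
      simp
    · rw [Matrix.diagonal_apply_ne _ hxy, Matrix.diagonal_apply_ne]
      exact fun h => hxy (add_right_cancel h)
  unfold RX
  rw [h, Matrix.inv_submatrix_equiv, Matrix.submatrix_apply]
  rfl

theorem RX_diff {c : ℝ} (hc : 0 < c) {Y : T d L → ℂ} (h : Dis c Y) (σ : ℝ) (a b : T d L) :
    Differentiable ℝ fun V : T d L → ℝ => RX Y σ V a b := by
  refine inv_diff (fun V => HX Y σ V) (fun i j => ?_) (fun V => HX_unit hc h σ V) a b
  unfold HX
  simp only [Matrix.add_apply]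
  suffices key : Differentiable ℝ fun V : T d L → ℝ =>
      (Matrix.diagonal (fun x => (σ : ℂ) * (V x : ℂ)) : Matrix (T d L) (T d L) ℂ) i j from
    key.const_add _
  by_cases hij : i = j
  · subst hij
    simp only [Matrix.diagonal_apply_eq]
    refine Differentiable.const_mul ?_ _
    have h2 : Differentiable ℝ fun V : T d L → ℝ => V i := by fun_prop
    exact Complex.ofRealCLM.differentiable.comp h2
  · simp only [Matrix.diagonal_apply_ne _ hij]
    exact differentiable_const _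

theorem RX_cont {c : ℝ} (hc : 0 < c) {Y : T d L → ℂ} (h : Dis c Y) (σ : ℝ) (a b : T d L) :
    Continuous fun V : T d L → ℝ => RX Y σ V a b := (RX_diff hc h σ a b).continuous

/-- the resolvent identity -/
theorem RX_sub {c : ℝ} (hc : 0 < c) {Y : T d L → ℂ} (h : Dis c Y) (σ : ℝ) (U V : T d L → ℝ) :
    RX Y σ U - RX Y σ V =
      -(RX Y σ U * Matrix.diagonal (fun x => (σ : ℂ) * (U x - V x)) * RX Y σ V) := by
  have e1 : Matrix.diagonal (fun x => (σ : ℂ) * ((U x : ℂ) - V x)) = HX Y σ U - HX Y σ V := by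
    unfold HX
    rw [add_sub_add_left_eq_sub, Matrix.diagonal_sub]
    congr 1
    funext x
    ring
  rw [e1, mul_sub, mul_HX hc h σ U, sub_mul, one_mul, mul_assoc, HX_mul hc h σ V, mul_one]
  abel

theorem RX_res {c : ℝ} (hc : 0 < c) {Y : T d L → ℂ} (h : Dis c Y) (σ : ℝ) (V : T d L → ℝ)
    (y : T d L) (s : ℝ) (a b : T d L) :
    RX Y σ (Function.update V y s) a b = RX Y σ V a b -
      (σ * (s - V y)) * (RX Y σ (Function.update V y s) a y * RX Y σ V y b) := by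
  set U := Function.update V y s with hU
  have h4 := congrFun (congrFun (RX_sub hc h σ U V) a) b
  rw [Matrix.sub_apply, Matrix.neg_apply, Matrix.mul_apply] at h4
  simp only [Matrix.mul_diagonal] at h4
  rw [Finset.sum_eq_single y] at h4
  · have : (U y : ℂ) = s := by simp [hU]
    rw [this] at h4
    linear_combination h4
  · intro c _ hc
    have : (U c : ℂ) - V c = 0 := by simp [hU, hc]
    rw [this]
    ring
  · intro h
    exact absurd (Finset.mem_univ _) h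

/-- the derivative of the resolvent -/
theorem RX_der {c : ℝ} (hc : 0 < c) {Y : T d L → ℂ} (h : Dis c Y) (σ : ℝ) (V : T d L → ℝ)
    (y a b : T d L) :
    HasDerivAt (fun s : ℝ => RX Y σ (Function.update V y s) a b)
      (-(σ * (RX Y σ V a y * RX Y σ V y b))) (V y) := by
  have hcc : Continuous fun s : ℝ => RX Y σ (Function.update V y s) a y :=
    (RX_cont hc h σ a y).comp (continuous_const.update y continuous_id)
  have h2 : HasDerivAt (fun s : ℝ => ((s - V y : ℝ) : ℂ) * RX Y σ (Function.update V y s) a y)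
      (RX Y σ V a y) (V y) := by
    rw [hasDerivAt_iff_tendsto_slope]
    have h3 : Filter.Tendsto (fun s : ℝ => RX Y σ (Function.update V y s) a y)
        (nhdsWithin (V y) {V y}ᶜ) (nhds (RX Y σ V a y)) := by
      have h4 := hcc.tendsto (V y)
      rw [Function.update_eq_self] at h4
      exact h4.mono_left nhdsWithin_le_nhds
    refine h3.congr' ?_
    filter_upwards [self_mem_nhdsWithin] with s hs
    have hs' : (s : ℝ) - V y ≠ 0 := sub_ne_zero.2 hs
    rw [slope_def_module]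
    simp only [sub_self, Complex.ofReal_zero, zero_mul, sub_zero]
    rw [Complex.real_smul]
    push_cast
    have : ((s : ℂ) - V y) ≠ 0 := by exact_mod_cast hs'
    field_simp
  have h5 := ((h2.const_mul (σ * RX Y σ V y b)).const_sub (RX Y σ V a b))
  have h6 : (fun s : ℝ => RX Y σ (Function.update V y s) a b) = fun s : ℝ =>
      RX Y σ V a b - (σ * RX Y σ V y b) *
        (((s - V y : ℝ) : ℂ) * RX Y σ (Function.update V y s) a y) := by
    funext s
    rw [RX_res hc h σ V y s a b]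
    push_cast
    ring
  rw [h6]
  refine h5.congr_deriv ?_
  ring

theorem RX_BC {c : ℝ} (hc : 0 < c) {Y : T d L → ℂ} (h : Dis c Y) (σ : ℝ) (a b : T d L) :
    BC fun V : T d L → ℝ => RX Y σ V a b :=
  ⟨RX_cont hc h σ a b, c⁻¹, fun V => RX_bd hc h σ V a b⟩

theorem RX_regE {c : ℝ} (hc : 0 < c) {Y : T d L → ℂ} (h : Dis c Y) (σ : ℝ) (a b : T d L) :
    RegE (fun V : T d L → ℝ => RX Y σ V a b)
      (fun y V => -(σ * (RX Y σ V a y * RX Y σ V y b))) :=
  ⟨RX_diff hc h σ a b, RX_BC hc h σ a b,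
    fun y => ((BC.const (σ : ℂ)).mul ((RX_BC hc h σ a y).mul (RX_BC hc h σ y b))).neg,
    fun y V => RX_der hc h σ V y a b⟩

end Pool.Agent.Run7.h47.V
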